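import Pool.Agent.H548.Chain2

/-!
# The two forms of sparseness
-/

set_option autoImplicit false

namespace Pool.Agent.H548

open Cardinal Ordinal Set Order

/-- The Jónsson cardinals below `κ` are sparse: either `κ` is a Mahlo cardinal and the strongly
inaccessible Jónsson cardinals below `κ` are not stationary in `κ`, or the regular Jónsson cardinals
below `κ` are bounded below `κ`. -/
def JonssonSparse (κ : Cardinal.{0}) : Prop :=
  (IsMahlo κ ∧ ¬ IsStationary (JonssonBelow κ)) ∨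
    ∃ lam < κ, ∀ μ, lam < μ → μ < κ → μ.IsRegular → ¬ IsJonsson μ

theorem chain_bounded_all {κ : Cardinal.{0}} (hκ : κ.IsRegular) (h0 : ℵ₀ < κ)
    (hl : ∀ μ < κ, succ μ < κ) (h : JonssonSparse κ) :
    ∃ F : List Ordinal.{0} → Ordinal.{0}, (∀ l : List Ordinal.{0}, F l < κ.ord) ∧
      ∀ X : ℕ → Set Ordinal.{0},
        (∀ n, X n ⊆ Set.Iio κ.ord ∧ X n ≠ Set.Iio κ.ord ∧ ClosedUnder F (X n)) →
        (∀ i n, i < n → ∀ β ∈ X n, sSup (X i ∩ Set.Iio β) ∈ X n) →
        ∃ η < κ.ord, ∀ y, (∀ n, y ∈ X n) → y ≤ η := by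
  rcases h with h | h
  · exact chain_bounded h.1 h.2
  · exact chain_bounded2 hκ h0 hl h

theorem inacc_limit {κ : Cardinal.{0}} (hκ : κ.IsInaccessible) (μ : Cardinal.{0}) (hμ : μ < κ) :
    succ μ < κ :=
  (Order.succ_le_of_lt (Cardinal.cantor μ)).trans_lt (hκ.isStrongPrelimit hμ)

end Pool.Agent.H548
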