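import Pool.Agent.H548.Seq

/-!
# Lists, good nodes and branches
-/

set_option autoImplicit false

namespace Pool.Agent.H548

open Cardinal Ordinal Set Order

/-- The canonical index of the node `d β ∩ γ`: the least `β' ≥ γ` with `d β' ∩ γ = d β ∩ γ`. -/
noncomputable def idx (d : Ordinal.{0} → Set Ordinal.{0}) (γ : Ordinal.{0})
    (B : Set Ordinal.{0}) : Ordinal.{0} :=
  sInf {b | γ ≤ b ∧ ∀ x < γ, (x ∈ d b ↔ x ∈ B)}

theorem idx_spec (d : Ordinal.{0} → Set Ordinal.{0}) (γ : Ordinal.{0}) (B : Set Ordinal.{0})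
    {b : Ordinal.{0}} (hb : γ ≤ b) (hx : ∀ x < γ, (x ∈ d b ↔ x ∈ B)) :
    (γ ≤ idx d γ B ∧ ∀ x < γ, (x ∈ d (idx d γ B) ↔ x ∈ B)) ∧ idx d γ B ≤ b :=
  ⟨csInf_mem (s := {b | γ ≤ b ∧ ∀ x < γ, (x ∈ d b ↔ x ∈ B)}) ⟨b, hb, hx⟩,
    csInf_le' (show b ∈ {b | γ ≤ b ∧ ∀ x < γ, (x ∈ d b ↔ x ∈ B)} from ⟨hb, hx⟩)⟩

theorem idx_congr (d : Ordinal.{0} → Set Ordinal.{0}) (γ : Ordinal.{0}) {B B' : Set Ordinal.{0}}
    (h : ∀ x < γ, (x ∈ B ↔ x ∈ B')) : idx d γ B = idx d γ B' := by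
  unfold idx
  congr 1
  ext b
  constructor
  · rintro ⟨h1, h2⟩
    exact ⟨h1, fun x hx => (h2 x hx).trans (h x hx)⟩
  · rintro ⟨h1, h2⟩
    exact ⟨h1, fun x hx => (h2 x hx).trans (h x hx).symm⟩

/-- The splitting function. -/
noncomputable def spl (d : Ordinal.{0} → Set Ordinal.{0}) (γ b b' : Ordinal.{0}) : Ordinal.{0} :=
  sInf {x | x < γ ∧ ¬ (x ∈ d b ↔ x ∈ d b')}

/-- the splitting function on lists -/
noncomputable def splL (d : Ordinal.{0} → Set Ordinal.{0}) : List Ordinal.{0} → Ordinal.{0}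
  | [γ, b, b'] => spl d γ b b'
  | _ => 0

/-- The node `d β ∩ δ` is good for `X`. -/
def GoodNode (d : Ordinal.{0} → Set Ordinal.{0}) (X : Set Ordinal.{0}) (δ β : Ordinal.{0}) : Prop :=
  ∀ γ ∈ X, γ ≤ δ → idx d γ (d β) ∈ X

theorem agree {κ : Cardinal.{0}} {d : Ordinal.{0} → Set Ordinal.{0}} {X : ℕ → Set Ordinal.{0}}
    (hsub : ∀ n, X n ⊆ Set.Iio κ.ord)
    (hcl : ∀ n, ClosedUnder (trunc κ.ord (splL d)) (X n)) {η : Ordinal.{0}}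
    (hη : ∀ y, (∀ n, y ∈ X n) → y ≤ η) {ε : Ordinal.{0}}
    (hε : ∀ n, ∀ a < ε, ∃ x ∈ X n, a < x ∧ x < ε) {δ β δ' β' : Ordinal.{0}}
    (hδβ : δ ≤ β) (hδβ' : δ' ≤ β') (hg : ∀ n, GoodNode d (X n) δ β)
    (hg' : ∀ n, GoodNode d (X n) δ' β') (hεδ : ε ≤ δ) (hεδ' : ε ≤ δ')
    (hlow : ∀ x ≤ η, (x ∈ d β ↔ x ∈ d β')) : ∀ x < ε, (x ∈ d β ↔ x ∈ d β') := by
  by_contra hcon
  push Not at hcon
  have hne : {x | x < ε ∧ ¬ (x ∈ d β ↔ x ∈ d β')}.Nonempty := by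
    obtain ⟨x, hx, h⟩ := hcon
    refine ⟨x, hx, ?_⟩
    rcases h with h | h
    · exact fun hc => h.2 (hc.1 h.1)
    · exact fun hc => h.1 (hc.2 h.2)
  obtain ⟨hz1, hz2⟩ := csInf_mem hne
  set z := sInf {x | x < ε ∧ ¬ (x ∈ d β ↔ x ∈ d β')} with hz
  have hzmin : ∀ y < z, (y ∈ d β ↔ y ∈ d β') := by
    intro y hy
    by_contra hc
    have : z ≤ y := csInf_le' ⟨hy.trans hz1, hc⟩
    exact absurd hy (not_lt.2 this)
  have hzη : η < z := by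
    by_contra hc
    exact hz2 (hlow z (not_lt.1 hc))
  refine absurd (hη z fun n => ?_) (not_le.2 hzη)
  obtain ⟨γ, hγ, hzγ, hγε⟩ := hε n z hz1
  have h1 := hg n γ hγ (hγε.le.trans hεδ)
  have h2 := hg' n γ hγ (hγε.le.trans hεδ')
  have h3 := (idx_spec d γ (d β) (b := β) (hγε.le.trans (hεδ.trans hδβ)) (fun _ _ => Iff.rfl)).1.2
  have h4 := (idx_spec d γ (d β') (b := β') (hγε.le.trans (hεδ'.trans hδβ'))
    (fun _ _ => Iff.rfl)).1.2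
  have h5 : spl d γ (idx d γ (d β)) (idx d γ (d β')) = z := by
    apply le_antisymm
    · apply csInf_le'
      refine ⟨hzγ, fun hc => hz2 ?_⟩
      rw [← h3 z hzγ, ← h4 z hzγ]
      exact hc
    · apply le_csInf
      · refine ⟨z, hzγ, fun hc => hz2 ?_⟩
        rw [← h3 z hzγ, ← h4 z hzγ]
        exact hc
      · rintro y ⟨hy1, hy2⟩
        by_contra hc
        rw [not_le] at hc
        apply hy2
        rw [h3 y hy1, h4 y hy1]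
        exact hzmin y hc
  have h6 := hcl n [γ, idx d γ (d β), idx d γ (d β')] (by
    intro x hx
    simp only [List.mem_cons, List.not_mem_nil, or_false] at hx
    rcases hx with rfl | rfl | rfl
    · exact hγ
    · exact h1
    · exact h2)
  have h7 : splL d [γ, idx d γ (d β), idx d γ (d β')] = z := h5
  unfold trunc at h6
  rw [h7, if_pos (hzγ.trans (hsub n hγ))] at h6
  exact h6

/-- Every list has a cofinal branch. -/
def HasBranches (κ : Cardinal.{0}) : Prop :=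
  ∀ d : Ordinal.{0} → Set Ordinal.{0}, ∃ B : Set Ordinal.{0}, ∀ δ < κ.ord,
    ∃ β < κ.ord, δ ≤ β ∧ ∀ x < δ, (x ∈ B ↔ x ∈ d β)

/-- A branch from good nodes of unboundedly many heights. -/
theorem exists_branch {κ : Cardinal.{0}} (hκ : κ.IsInaccessible)
    {d : Ordinal.{0} → Set Ordinal.{0}} {X : ℕ → Set Ordinal.{0}}
    (hsub : ∀ n, X n ⊆ Set.Iio κ.ord) (hunb : ∀ n, ∀ a < κ.ord, ∃ x ∈ X n, a < x)
    (hcl : ∀ n, ClosedUnder (trunc κ.ord (splL d)) (X n)) {η : Ordinal.{0}} (hηκ : η < κ.ord)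
    (hη : ∀ y, (∀ n, y ∈ X n) → y ≤ η)
    (hgood : ∀ a < κ.ord, ∃ δ β, a < δ ∧ δ ≤ β ∧ β < κ.ord ∧ ∀ n, GoodNode d (X n) δ β) :
    ∃ B : Set Ordinal.{0}, ∀ δ < κ.ord, ∃ β < κ.ord, δ ≤ β ∧ ∀ x < δ, (x ∈ B ↔ x ∈ d β) := by
  -- the limit points
  have hlim : ∀ a < κ.ord, ∃ ε, a < ε ∧ ε < κ.ord ∧ ∀ n, ∀ a < ε, ∃ x ∈ X n, a < x ∧ x < ε := by
    intro a ha
    have hcl2 : IsClub (⋂ n, {a : Set.Iio κ.ord | ∀ b < a.1, ∃ y ∈ X n, b < y ∧ y < a.1}) :=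
      IsClub.iInter_of_countable (cof_Iio_ord hκ) fun n => isClub_lim hκ (hsub n) (hunb n)
    have ha1 : a + 1 < κ.ord := (Cardinal.isSuccLimit_ord hκ.aleph0_lt.le).add_one_lt ha
    obtain ⟨ε, hε, h1⟩ := hcl2.isCofinal ⟨a + 1, ha1⟩
    have h2 : a + 1 ≤ ε.1 := h1
    refine ⟨ε.1, (Order.lt_add_one_iff.2 le_rfl).trans_le h2, ε.2, fun n => ?_⟩
    exact Set.mem_iInter.1 hε n
  have hsucc : η + 1 < κ.ord := (Cardinal.isSuccLimit_ord hκ.aleph0_lt.le).add_one_lt hηκ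
  -- pigeonhole
  obtain ⟨P, hP⟩ : ∃ P : Set (η + 1).ToType, ∀ a < κ.ord, ∃ δ β, a < δ ∧ δ ≤ β ∧ β < κ.ord ∧
      (∀ n, GoodNode d (X n) δ β) ∧ ∀ x : (η + 1).ToType, (x ∈ P ↔ (ToType.mk.symm x).1 ∈ d β) := by
    by_contra hcon
    push Not at hcon
    choose g hg1 hg2 using hcon
    have h1 : (⨆ P, g P) < κ.ord := by
      apply Ordinal.iSup_lt_of_lt_cof
      · rw [Cardinal.mk_set]
        refine lt_of_lt_of_le ?_ hκ.le_cof_ord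
        apply hκ.isStrongPrelimit
        rw [Cardinal.mk_toType, ← Cardinal.lt_ord]
        exact hsucc
      · exact hg1
    obtain ⟨δ, β, h2, h3, h4, h5⟩ := hgood _ h1
    obtain ⟨x, hx⟩ := hg2 {x | (ToType.mk.symm x).1 ∈ d β} δ β
      ((Ordinal.le_iSup g _).trans_lt h2) h3 h4 h5
    rcases hx with hx | hx
    · exact hx.2 hx.1
    · exact hx.1 hx.2
  let Q : Ordinal.{0} → Ordinal.{0} → Prop := fun δ β => δ ≤ β ∧ β < κ.ord ∧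
      (∀ n, GoodNode d (X n) δ β) ∧ ∀ x : (η + 1).ToType, (x ∈ P ↔ (ToType.mk.symm x).1 ∈ d β)
  have hagree : ∀ ε, (∀ n, ∀ a < ε, ∃ x ∈ X n, a < x ∧ x < ε) → ∀ δ β δ' β', Q δ β → Q δ' β' →
      ε ≤ δ → ε ≤ δ' → ∀ x < ε, (x ∈ d β ↔ x ∈ d β') := by
    intro ε hε δ β δ' β' h h' hεδ hεδ'
    refine agree hsub hcl hη hε h.1 h'.1 h.2.2.1 h'.2.2.1 hεδ hεδ' ?_
    intro x hx
    have hx' : x ∈ Set.Iio (η + 1) := Order.lt_add_one_iff.2 hx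
    have h1 := h.2.2.2 (ToType.mk ⟨x, hx'⟩)
    have h2 := h'.2.2.2 (ToType.mk ⟨x, hx'⟩)
    rw [ToType.mk.symm_apply_apply] at h1 h2
    exact h1.symm.trans h2
  refine ⟨{x | ∃ ε δ β, (∀ n, ∀ a < ε, ∃ x ∈ X n, a < x ∧ x < ε) ∧ x < ε ∧ ε ≤ δ ∧ Q δ β ∧
    x ∈ d β}, fun δ₀ hδ₀ => ?_⟩
  obtain ⟨ε, h1, h2, h3⟩ := hlim δ₀ hδ₀
  obtain ⟨δ, β, h4, h5, h6, h7, h8⟩ := hP ε h2
  refine ⟨β, h6, (h1.trans h4).le.trans h5, fun x hx => ⟨?_, fun h => ?_⟩⟩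
  · rintro ⟨ε', δ', β', h9, h10, h11, h12, h13⟩
    have h14 := hagree (min ε ε') (by
      intro n a ha
      rcases min_choice ε ε' with hm | hm
      · rw [hm] at ha ⊢
        exact h3 n a ha
      · rw [hm] at ha ⊢
        exact h9 n a ha) δ β δ' β' ⟨h5, h6, h7, h8⟩ h12 ((min_le_left _ _).trans h4.le)
        ((min_le_right _ _).trans h11) x (lt_min (hx.trans h1) h10)
    exact h14.2 h13
  · exact ⟨ε, δ, β, h3, hx.trans h1, h4.le, ⟨h5, h6, h7, h8⟩, h⟩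

end Pool.Agent.H548
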