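import Pool.Agent.H548.Core

/-!
# Countable chains of closed sets have bounded intersection
-/

set_option autoImplicit false

namespace Pool.Agent.H548

open Cardinal Ordinal Set Order

/-- one function from countably many -/
def comb (G : ℕ → List Ordinal.{0} → Ordinal.{0}) (l : List Ordinal.{0}) : Ordinal.{0} :=
  G l.length.unpair.1 (l.take l.length.unpair.2)

open Classical in
/-- truncation -/
noncomputable def trunc (k : Ordinal.{0}) (F : List Ordinal.{0} → Ordinal.{0})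
    (l : List Ordinal.{0}) : Ordinal.{0} :=
  if F l < k then F l else 0

theorem closed_comb {k : Ordinal.{0}} {G : ℕ → List Ordinal.{0} → Ordinal.{0}}
    {X : Set Ordinal.{0}} (hne : X.Nonempty) (h : ClosedUnder (trunc k (comb G)) X) (i : ℕ)
    (l : List Ordinal.{0}) (hl : ∀ x ∈ l, x ∈ X) (hk : G i l < k) : G i l ∈ X := by
  obtain ⟨z, hz⟩ := hne
  have h1 := h (l ++ List.replicate (Nat.pair i l.length - l.length) z) (by
    intro x hx
    rw [List.mem_append] at hx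
    rcases hx with hx | hx
    · exact hl x hx
    · rw [List.eq_of_mem_replicate hx]; exact hz)
  have h2 : (l ++ List.replicate (Nat.pair i l.length - l.length) z).length =
      Nat.pair i l.length := by
    rw [List.length_append, List.length_replicate]
    have := Nat.right_le_pair i l.length
    omega
  have h3 : comb G (l ++ List.replicate (Nat.pair i l.length - l.length) z) = G i l := by
    unfold comb
    rw [h2, Nat.unpair_pair]
    simp
  unfold trunc at h1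
  rw [h3, if_pos hk] at h1
  exact h1

theorem trunc_lt {k : Ordinal.{0}} (hk : 0 < k) (F : List Ordinal.{0} → Ordinal.{0}) (l) :
    trunc k F l < k := by
  unfold trunc
  split_ifs with h
  · exact h
  · exact hk

open Classical in
/-- the algebras -/
noncomputable def gg (a : Ordinal.{0}) : List Ordinal.{0} → Ordinal.{0} :=
  if h : ∃ μ : Cardinal.{0}, a = μ.ord ∧ μ.IsInaccessible ∧ ¬ IsJonsson μ then
    (exists_alg h.choose_spec.2.1.aleph0_lt h.choose_spec.2.1.le_cof_ord h.choose_spec.2.2).choose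
  else fun _ => 0

theorem gg_spec {μ : Cardinal.{0}} (h1 : μ.IsInaccessible) (h2 : ¬ IsJonsson μ) :
    (∀ l, gg μ.ord l < μ.ord) ∧ ∀ X ⊆ Set.Iio μ.ord,
      (∀ a < μ.ord, ∃ x ∈ X, a ≤ x) →
      (∀ l : List Ordinal.{0}, (∀ x ∈ l, x ∈ X) → gg μ.ord l ∈ X) → X = Set.Iio μ.ord := by
  have h : ∃ ν : Cardinal.{0}, μ.ord = ν.ord ∧ ν.IsInaccessible ∧ ¬ IsJonsson ν :=
    ⟨μ, rfl, h1, h2⟩
  have h3 : gg μ.ord = (exists_alg h.choose_spec.2.1.aleph0_lt h.choose_spec.2.1.le_cof_ord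
      h.choose_spec.2.2).choose := by
    unfold gg
    rw [dif_pos h]
  have h4 := (exists_alg h.choose_spec.2.1.aleph0_lt h.choose_spec.2.1.le_cof_ord
      h.choose_spec.2.2).choose_spec
  rw [← h3] at h4
  have h5 : h.choose.ord = μ.ord := h.choose_spec.1.symm
  rw [h5] at h4
  exact h4

theorem gg_le (a : Ordinal.{0}) (l) : gg a l ≤ a := by
  unfold gg
  split_ifs with h
  · have h4 := (exists_alg h.choose_spec.2.1.aleph0_lt h.choose_spec.2.1.le_cof_ord
      h.choose_spec.2.2).choose_spec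
    exact (h4.1 l).le.trans h.choose_spec.1.ge
  · exact zero_le

/-- cofinal subsets -/
noncomputable def AA (b : Ordinal.{0}) : Set Ordinal.{0} :=
  Set.range (exists_cofinal_family b).choose_spec.choose

theorem AA_spec (b : Ordinal.{0}) : (AA b ⊆ Set.Iio b) ∧ (∀ a < b, ∃ x ∈ AA b, a ≤ x) ∧
    ∃ (ι : Type) (f : ι → Ordinal.{0}), #ι = b.cof ∧ AA b = Set.range f := by
  obtain ⟨h1, h2, h3⟩ := (exists_cofinal_family b).choose_spec.choose_spec
  refine ⟨?_, ?_, _, _, h1, rfl⟩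
  · rintro _ ⟨i, rfl⟩
    exact h2 i
  · intro a ha
    obtain ⟨i, hi⟩ := h3 a ha
    exact ⟨_, ⟨i, rfl⟩, hi⟩

/-- the countably many functions -/
noncomputable def GG (C : Set Ordinal.{0}) : ℕ → List Ordinal.{0} → Ordinal.{0}
  | 0, a :: t => gg a t
  | 1, [b] => sSup (C ∩ Set.Iio b)
  | 2, [b] => sSup (Set.Iio b)
  | 3, [b] => b.cof.ord
  | 4, [b, c] => sInf {x ∈ AA b | c ≤ x}
  | 5, [b] => (sInf {θ : Cardinal.{0} | b.card ≤ 2 ^ θ}).ord
  | _, _ => 0

theorem good_of_closed {κ : Cardinal.{0}} {C : Set Ordinal.{0}} {X : Set Ordinal.{0}}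
    (hsub : X ⊆ Set.Iio κ.ord) (hne : X.Nonempty)
    (h : ClosedUnder (trunc κ.ord (comb (GG C))) X) : Good C gg AA X := by
  have h1 := fun i l hl hk => closed_comb hne h i l hl hk
  refine ⟨fun a ha l hl => ?_, fun b hb => ?_, fun b hb => ?_, fun b hb => ?_,
    fun b hb c hc hcb => ?_, fun b hb => ?_⟩
  · refine h1 0 (a :: l) ?_ ?_
    · intro x hx
      rcases List.mem_cons.1 hx with rfl | hx
      · exact ha
      · exact hl x hx
    · exact (gg_le a l).trans_lt (hsub ha)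
  · refine h1 1 [b] (by simpa using hb) ?_
    show sSup (C ∩ Set.Iio b) < _
    exact (csSup_le' (fun x hx => hx.2.le)).trans_lt (hsub hb)
  · refine h1 2 [b] (by simpa using hb) ?_
    show sSup (Set.Iio b) < _
    exact (csSup_le' (fun x hx => le_of_lt hx)).trans_lt (hsub hb)
  · refine h1 3 [b] (by simpa using hb) ?_
    show b.cof.ord < _
    exact (Ordinal.ord_cof_le b).trans_lt (hsub hb)
  · refine h1 4 [b, c] (by simpa using ⟨hb, hc⟩) ?_
    show sInf {x ∈ AA b | c ≤ x} < _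
    obtain ⟨x, hx, h2⟩ := (AA_spec b).2.1 c hcb
    exact (csInf_le' (show x ∈ {x ∈ AA b | c ≤ x} from ⟨hx, h2⟩)).trans_lt
      (((AA_spec b).1 hx).trans (hsub hb))
  · refine h1 5 [b] (by simpa using hb) ?_
    show (sInf {θ : Cardinal.{0} | b.card ≤ 2 ^ θ}).ord < _
    have h2 : sInf {θ : Cardinal.{0} | b.card ≤ 2 ^ θ} ≤ b.card :=
      csInf_le' (show b.card ∈ {θ : Cardinal.{0} | b.card ≤ 2 ^ θ} from
        (Cardinal.cantor _).le)
    exact ((Cardinal.ord_le_ord.2 h2).trans (Cardinal.ord_card_le b)).trans_lt (hsub hb)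

theorem cof_Iio_ord {κ : Cardinal.{0}} (hκ : κ.IsInaccessible) :
    Order.cof (Set.Iio κ.ord) ≠ ℵ₀ := by
  rw [Ordinal.cof_Iio, ← Ordinal.lift_cof]
  have h1 : ℵ₀ < κ.ord.cof := hκ.aleph0_lt.trans_le hκ.le_cof_ord
  have h2 : Cardinal.lift.{1} ℵ₀ < Cardinal.lift.{1} κ.ord.cof := Cardinal.lift_lt.2 h1
  rw [Cardinal.lift_aleph0] at h2
  exact h2.ne'

/-- The limit points of an unbounded set form a club. -/
theorem isClub_lim {κ : Cardinal.{0}} (hκ : κ.IsInaccessible) {Y : Set Ordinal.{0}}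
    (hsub : Y ⊆ Set.Iio κ.ord) (hY : ∀ a < κ.ord, ∃ y ∈ Y, a < y) :
    IsClub {a : Set.Iio κ.ord | ∀ b < a.1, ∃ y ∈ Y, b < y ∧ y < a.1} := by
  constructor
  · intro d hd hne _ a ha b hb
    obtain ⟨c, hc, hbc⟩ : ∃ c ∈ d, b < c.1 := by
      by_contra hcon
      push Not at hcon
      have h1 : a ≤ ⟨b, hb.trans a.2⟩ := ha.2 (fun c hc => hcon c hc)
      exact absurd hb (not_lt.2 h1)
    obtain ⟨y, hy, h1, h2⟩ := hd hc b hbc
    exact ⟨y, hy, h1, h2.trans_le (ha.1 hc)⟩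
  · intro a
    have h1 : ∀ b : Set.Iio κ.ord, ∃ y : Set.Iio κ.ord, y.1 ∈ Y ∧ b < y := fun b => by
      obtain ⟨y, hy, h2⟩ := hY b.1 b.2
      exact ⟨⟨y, hsub hy⟩, hy, h2⟩
    choose nx hnx1 hnx2 using h1
    let s : ℕ → Set.Iio κ.ord := fun n => nx^[n] a
    have hs : ∀ n, s n < s (n + 1) := fun n => by
      show nx^[n] a < nx^[n + 1] a
      rw [Function.iterate_succ_apply']
      exact hnx2 _
    have hsY : ∀ n, (s (n + 1)).1 ∈ Y := fun n => by
      show (nx^[n + 1] a).1 ∈ Y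
      rw [Function.iterate_succ_apply']
      exact hnx1 _
    have h3 : (⨆ n, (s n).1) < κ.ord := by
      apply Ordinal.iSup_lt_of_lt_cof
      · rw [Cardinal.mk_nat]
        exact hκ.aleph0_lt.trans_le hκ.le_cof_ord
      · exact fun n => (s n).2
    refine ⟨⟨_, h3⟩, ?_, Ordinal.le_iSup (fun n => (s n).1) 0⟩
    intro b hb
    obtain ⟨n, hn⟩ := (Ordinal.lt_iSup_iff).1 hb
    refine ⟨_, hsY n, lt_trans hn (hs n), ?_⟩
    exact lt_of_lt_of_le (hs (n + 1)) (Ordinal.le_iSup (fun n => (s n).1) (n + 2))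

theorem isClub_gt {κ : Cardinal.{0}} (hκ : κ.IsInaccessible) (η : Ordinal.{0}) (hη : η < κ.ord) :
    IsClub {a : Set.Iio κ.ord | η < a.1} := by
  constructor
  · intro d hd hne _ a ha
    obtain ⟨c, hc⟩ := hne
    exact lt_of_lt_of_le (show η < c.1 from hd hc) (ha.1 hc)
  · intro a
    have h1 : max a.1 η + 1 < κ.ord :=
      (Cardinal.isSuccLimit_ord hκ.aleph0_lt.le).add_one_lt (max_lt a.2 hη)
    refine ⟨⟨_, h1⟩, ?_, ?_⟩
    · show η < max a.1 η + 1
      exact Order.lt_add_one_iff.2 (le_max_right _ _)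
    · show a.1 ≤ max a.1 η + 1
      exact (le_max_left _ _).trans (Order.lt_add_one_iff.2 le_rfl).le

/-- **Countable chains.** -/
theorem chain_bounded {κ : Cardinal.{0}} (hM : IsMahlo κ) (hJ : ¬ IsStationary (JonssonBelow κ)) :
    ∃ F : List Ordinal.{0} → Ordinal.{0}, (∀ l : List Ordinal.{0}, F l < κ.ord) ∧
      ∀ X : ℕ → Set Ordinal.{0},
        (∀ n, X n ⊆ Set.Iio κ.ord ∧ X n ≠ Set.Iio κ.ord ∧ ClosedUnder F (X n)) →
        (∀ i n, i < n → ∀ β ∈ X n, sSup (X i ∩ Set.Iio β) ∈ X n) →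
        ∃ η < κ.ord, ∀ y, (∀ n, y ∈ X n) → y ≤ η := by
  obtain ⟨hκ, hst⟩ := hM
  obtain ⟨t, ht, hdis⟩ := not_isStationary_iff.1 hJ
  let C : Set Ordinal.{0} := Subtype.val '' t
  refine ⟨trunc κ.ord (comb (GG C)), fun l => trunc_lt hκ.isRegular.ord_pos _ l, fun X hX hS => ?_⟩
  by_contra hcon
  push Not at hcon
  have hunb : ∀ a < κ.ord, ∃ y, a < y ∧ ∀ n, y ∈ X n := fun a ha => by
    obtain ⟨y, hy, h1⟩ := hcon a ha
    exact ⟨y, h1, hy⟩
  have hne : ∀ n, (X n).Nonempty := fun n => by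
    obtain ⟨y, -, hy⟩ := hunb 0 hκ.isRegular.ord_pos
    exact ⟨y, hy n⟩
  have hgood : ∀ n, Good C gg AA (X n) := fun n => good_of_closed (hX n).1 (hne n) (hX n).2.2
  have hmiss : ∀ n, ∃ i < κ.ord, i ∉ X n := fun n => by
    by_contra h
    push Not at h
    exact (hX n).2.1 (le_antisymm (hX n).1 h)
  choose m hm1 hm2 using hmiss
  have hη : (⨆ n, m n) < κ.ord := by
    apply Ordinal.iSup_lt_of_lt_cof
    · rw [Cardinal.mk_nat]
      exact hκ.aleph0_lt.trans_le hκ.le_cof_ord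
    · exact hm1
  let Y : Set Ordinal.{0} := {y | ∀ n, y ∈ X n}
  have hYsub : Y ⊆ Set.Iio κ.ord := fun y hy => (hX 0).1 (hy 0)
  have hclub := IsClub.inter (cof_Iio_ord hκ) ht (IsClub.inter (cof_Iio_ord hκ)
    (isClub_lim hκ hYsub (fun a ha => by
      obtain ⟨y, h1, h2⟩ := hunb a ha
      exact ⟨y, h2, h1⟩)) (isClub_gt hκ _ hη))
  obtain ⟨δ, hδ1, hδt, hδL, hδη⟩ := hst hclub
  obtain ⟨μ, hμ, hδμ⟩ := hδ1
  refine chain_contra (κ := κ) (C := C) (g := gg) (A := AA) AA_spec ?_ ?_ ?_ (fun n => (hX n).1)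
    hgood hS hunb (μ := μ) ?_ hμ ?_ ?_ ?_
  · intro b hb hb0 hlim
    refine ⟨⟨b, hb⟩, ?_, rfl⟩
    apply ht.isLUB_mem (t := {c | c ∈ t ∧ c.1 < b}) (fun c hc => hc.1)
    · obtain ⟨c, ⟨c', hc', rfl⟩, h1, h2⟩ := hlim 0 hb0
      exact ⟨c', hc', h2⟩
    · constructor
      · intro c hc
        exact hc.2.le
      · intro a ha
        by_contra hc
        rw [not_le] at hc
        obtain ⟨c, ⟨c', hc', rfl⟩, h1, h2⟩ := hlim a.1 hc
        exact absurd (ha ⟨hc', h2⟩) (not_le.2 h1)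
  · intro ν hνκ hν hνC
    have hnJ : ¬ IsJonsson ν := by
      intro hJν
      obtain ⟨c, hc, h1⟩ := hνC
      exact Set.disjoint_left.1 hdis (show c ∈ JonssonBelow κ from ⟨ν, hν, hJν, h1⟩) hc
    exact (gg_spec hν hnJ).2
  · intro ν hνκ hν hνC
    have hnJ : ¬ IsJonsson ν := by
      intro hJν
      obtain ⟨c, hc, h1⟩ := hνC
      exact Set.disjoint_left.1 hdis (show c ∈ JonssonBelow κ from ⟨ν, hν, hJν, h1⟩) hc
    exact (gg_spec hν hnJ).1
  · rw [← Cardinal.ord_lt_ord, ← hδμ]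
    exact δ.2
  · exact ⟨δ, hδt, hδμ⟩
  · intro n
    refine ⟨m n, ?_, hm2 n⟩
    rw [← hδμ]
    exact (Ordinal.le_iSup m n).trans_lt hδη
  · intro a ha
    rw [← hδμ] at ha
    obtain ⟨y, hy, h1, h2⟩ := hδL a ha
    exact ⟨y, h1, hδμ ▸ h2, hy⟩

end Pool.Agent.H548
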