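import Pool.Agent.H548.Core2

/-!
# Countable chains when the regular Jónsson cardinals are bounded
-/

set_option autoImplicit false

namespace Pool.Agent.H548

open Cardinal Ordinal Set Order

open Classical in
/-- the algebras -/
noncomputable def gg2 (a : Ordinal.{0}) : List Ordinal.{0} → Ordinal.{0} :=
  if h : ∃ μ : Cardinal.{0}, a = μ.ord ∧ ℵ₀ < μ ∧ μ ≤ μ.ord.cof ∧ ¬ IsJonsson μ then
    (exists_alg h.choose_spec.2.1 h.choose_spec.2.2.1 h.choose_spec.2.2.2).choose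
  else fun _ => 0

theorem gg2_spec {μ : Cardinal.{0}} (h0 : ℵ₀ < μ) (h1 : μ.IsRegular) (h2 : ¬ IsJonsson μ) :
    (∀ l, gg2 μ.ord l < μ.ord) ∧ ∀ X ⊆ Set.Iio μ.ord,
      (∀ a < μ.ord, ∃ x ∈ X, a ≤ x) →
      (∀ l : List Ordinal.{0}, (∀ x ∈ l, x ∈ X) → gg2 μ.ord l ∈ X) → X = Set.Iio μ.ord := by
  have h : ∃ ν : Cardinal.{0}, μ.ord = ν.ord ∧ ℵ₀ < ν ∧ ν ≤ ν.ord.cof ∧ ¬ IsJonsson ν :=
    ⟨μ, rfl, h0, h1.2, h2⟩
  have h3 : gg2 μ.ord = (exists_alg h.choose_spec.2.1 h.choose_spec.2.2.1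
      h.choose_spec.2.2.2).choose := by
    unfold gg2
    rw [dif_pos h]
  have h4 := (exists_alg h.choose_spec.2.1 h.choose_spec.2.2.1
      h.choose_spec.2.2.2).choose_spec
  rw [← h3] at h4
  have h5 : h.choose.ord = μ.ord := h.choose_spec.1.symm
  rw [h5] at h4
  exact h4

theorem gg2_le (a : Ordinal.{0}) (l) : gg2 a l ≤ a := by
  unfold gg2
  split_ifs with h
  · have h4 := (exists_alg h.choose_spec.2.1 h.choose_spec.2.2.1
      h.choose_spec.2.2.2).choose_spec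
    exact (h4.1 l).le.trans h.choose_spec.1.ge
  · exact zero_le

/-- the countably many functions -/
noncomputable def GG2 : ℕ → List Ordinal.{0} → Ordinal.{0}
  | 0, a :: t => gg2 a t
  | 1, [b] => sSup (Set.Iio b)
  | 2, [b] => b.cof.ord
  | 3, [b, z] => ea b z
  | 4, [b, x] => ixx b x
  | _, _ => 0

theorem good2_of_closed {κ : Cardinal.{0}} {X : Set Ordinal.{0}}
    (hsub : X ⊆ Set.Iio κ.ord) (hne : X.Nonempty)
    (h : ClosedUnder (trunc κ.ord (comb GG2)) X) : Good2 gg2 X := by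
  have h1 := fun i l hl hk => closed_comb hne h i l hl hk
  refine ⟨fun a ha l hl => ?_, fun b hb => ?_, fun b hb => ?_,
    fun b hb z hz hzb => ?_, fun b hb x hx hxb => ?_⟩
  · refine h1 0 (a :: l) ?_ ?_
    · intro x hx
      rcases List.mem_cons.1 hx with rfl | hx
      · exact ha
      · exact hl x hx
    · exact (gg2_le a l).trans_lt (hsub ha)
  · refine h1 1 [b] (by simpa using hb) ?_
    show sSup (Set.Iio b) < _
    exact (csSup_le' (fun x hx => le_of_lt hx)).trans_lt (hsub hb)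
  · refine h1 2 [b] (by simpa using hb) ?_
    show b.cof.ord < _
    exact (Ordinal.ord_cof_le b).trans_lt (hsub hb)
  · refine h1 3 [b, z] (by simpa using ⟨hb, hz⟩) ?_
    show ea b z < _
    exact (ea_lt hzb).trans (hsub hb)
  · refine h1 4 [b, x] (by simpa using ⟨hb, hx⟩) ?_
    show ixx b x < _
    exact ((ixx_spec hxb).1.trans_le (Ordinal.ord_cof_le b)).trans (hsub hb)

/-- Limit points of prescribed cofinality. -/
theorem exists_lim_cof {κ : Cardinal.{0}} (hκ : κ.IsRegular) {τ : Cardinal.{0}}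
    (hτ : τ.IsRegular) (hτκ : τ < κ) {Y : Set Ordinal.{0}} (hsub : Y ⊆ Set.Iio κ.ord)
    (hY : ∀ a < κ.ord, ∃ y ∈ Y, a < y) :
    ∃ δ < κ.ord, δ.cof = τ ∧ ∀ a < δ, ∃ y ∈ Y, a < y ∧ y < δ := by
  classical
  have := Cardinal.noMaxOrder hτ.aleph0_le
  have step : ∀ (i : τ.ord.ToType) (g : ∀ j, j < i → Set.Iio κ.ord), ∃ y : Set.Iio κ.ord,
      y.1 ∈ Y ∧ ∀ j hj, g j hj < y := by
    intro i g
    have h1 : (⨆ j : Set.Iio i, (g j.1 j.2).1) < κ.ord := by
      apply Ordinal.iSup_lt_of_lt_cof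
      · have h2 := Cardinal.mk_Iio_lt i (by rw [Cardinal.mk_ord_toType, Ordinal.type_toType])
        rw [Cardinal.mk_ord_toType] at h2
        exact (h2.trans hτκ).trans_le hκ.2
      · exact fun j => (g j.1 j.2).2
    obtain ⟨y, hy, h2⟩ := hY _ h1
    refine ⟨⟨y, hsub hy⟩, hy, fun j hj => ?_⟩
    show (g j hj).1 < y
    exact lt_of_le_of_lt (Ordinal.le_iSup (fun j : Set.Iio i => (g j.1 j.2).1) ⟨j, hj⟩) h2
  let F : τ.ord.ToType → Set.Iio κ.ord :=
    WellFounded.fix (wellFounded_lt (α := τ.ord.ToType)) fun i g => (step i g).choose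
  have hF : ∀ i, (F i).1 ∈ Y ∧ ∀ j, j < i → F j < F i := by
    intro i
    have h1 : F i = (step i fun j _ => F j).choose := WellFounded.fix_eq _ _ _
    have h2 := (step i fun j _ => F j).choose_spec
    rw [← h1] at h2
    exact h2
  have hmono : StrictMono fun i => (F i).1 := fun j i hij => (hF i).2 j hij
  refine ⟨⨆ i, (F i).1, ?_, ?_, ?_⟩
  · apply Ordinal.iSup_lt_of_lt_cof
    · rw [Cardinal.mk_ord_toType]
      exact hτκ.trans_le hκ.2
    · exact fun i => (F i).2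
  · rw [Ordinal.cof_iSup hmono, Ordinal.cof_toType]
    exact hτ.cof_ord
  · intro a ha
    obtain ⟨i, hi⟩ := (Ordinal.lt_iSup_iff).1 ha
    obtain ⟨i', hi'⟩ := exists_gt i
    exact ⟨_, (hF i).1, hi, (hmono hi').trans_le (Ordinal.le_iSup (fun i => (F i).1) i')⟩

/-- **Countable chains**, second version. -/
theorem chain_bounded2 {κ : Cardinal.{0}} (hκ : κ.IsRegular) (h0 : ℵ₀ < κ)
    (hl : ∀ μ < κ, succ μ < κ)
    (hJ : ∃ lam < κ, ∀ μ, lam < μ → μ < κ → μ.IsRegular → ¬ IsJonsson μ) :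
    ∃ F : List Ordinal.{0} → Ordinal.{0}, (∀ l : List Ordinal.{0}, F l < κ.ord) ∧
      ∀ X : ℕ → Set Ordinal.{0},
        (∀ n, X n ⊆ Set.Iio κ.ord ∧ X n ≠ Set.Iio κ.ord ∧ ClosedUnder F (X n)) →
        (∀ i n, i < n → ∀ β ∈ X n, sSup (X i ∩ Set.Iio β) ∈ X n) →
        ∃ η < κ.ord, ∀ y, (∀ n, y ∈ X n) → y ≤ η := by
  obtain ⟨lam, hlam, hJ⟩ := hJ
  refine ⟨trunc κ.ord (comb GG2), fun l => trunc_lt hκ.ord_pos _ l, fun X hX hS => ?_⟩
  by_contra hcon
  push Not at hcon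
  have hunb : ∀ a < κ.ord, ∃ y, a < y ∧ ∀ n, y ∈ X n := fun a ha => by
    obtain ⟨y, hy, h1⟩ := hcon a ha
    exact ⟨y, h1, hy⟩
  have hne : ∀ n, (X n).Nonempty := fun n => by
    obtain ⟨y, -, hy⟩ := hunb 0 hκ.ord_pos
    exact ⟨y, hy n⟩
  have hgood : ∀ n, Good2 gg2 (X n) := fun n => good2_of_closed (hX n).1 (hne n) (hX n).2.2
  have hmiss : ∀ n, ∃ i < κ.ord, i ∉ X n := fun n => by
    by_contra h
    push Not at h
    exact (hX n).2.1 (le_antisymm (hX n).1 h)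
  choose m hm1 hm2 using hmiss
  have hη : (⨆ n, m n) < κ.ord := by
    apply Ordinal.iSup_lt_of_lt_cof
    · rw [Cardinal.mk_nat]
      exact h0.trans_le hκ.2
    · exact hm1
  set η := ⨆ n, m n with hηdef
  let τ : Cardinal.{0} := succ (max ℵ₀ (max lam η.card))
  have hτ : τ.IsRegular := Cardinal.isRegular_succ (le_max_left _ _)
  have hτκ : τ < κ := hl _ (max_lt h0 (max_lt hlam (Cardinal.lt_ord.1 hη)))
  have hτ0 : ℵ₀ < τ := Order.lt_succ_iff.2 (le_max_left _ _)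
  have hlamτ : lam < τ := Order.lt_succ_iff.2 ((le_max_left _ _).trans (le_max_right _ _))
  have hητ : η < τ.ord := by
    rw [Cardinal.lt_ord]
    exact Order.lt_succ_iff.2 ((le_max_right _ _).trans (le_max_right _ _))
  refine chain_contra2 (κ := κ) (g := gg2) hτ0 ?_ ?_ (fun n => (hX n).1) hgood hS hunb hτκ hτ
    ?_ ?_
  · intro ν hνκ hν hτν
    exact (gg2_spec (hτ0.trans_le hτν) hν (hJ ν (hlamτ.trans_le hτν) hνκ hν)).2
  · intro ν hνκ hν hτν
    exact (gg2_spec (hτ0.trans_le hτν) hν (hJ ν (hlamτ.trans_le hτν) hνκ hν)).1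
  · intro n
    exact ⟨m n, (Ordinal.le_iSup m n).trans_lt hητ, hm2 n⟩
  · obtain ⟨δ, h1, h2, h3⟩ := exists_lim_cof hκ hτ hτκ (Y := {y | ∀ n, y ∈ X n})
      (fun y hy => (hX 0).1 (hy 0)) (fun a ha => by
        obtain ⟨y, h1, h2⟩ := hunb a ha
        exact ⟨y, h2, h1⟩)
    refine ⟨δ, h1, h2, fun a ha => ?_⟩
    obtain ⟨y, hy, h4, h5⟩ := h3 a ha
    exact ⟨y, h4, h5, hy⟩

end Pool.Agent.H548
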