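import Pool.Agent.H548.Chain

/-!
# Proper closed sets from the partition property
-/

set_option autoImplicit false

namespace Pool.Agent.H548

open Cardinal Ordinal Set Order

/-- the ordinal of an element of `κ` -/
noncomputable def toO {κ : Cardinal.{0}} (a : κ.ord.ToType) : Ordinal.{0} := (ToType.mk.symm a).1

theorem toO_lt {κ : Cardinal.{0}} (a : κ.ord.ToType) : toO a < κ.ord := (ToType.mk.symm a).2

/-- the element of `κ` given by an ordinal -/
noncomputable def ofO {κ : Cardinal.{0}} (x : Ordinal.{0}) (hx : x < κ.ord) : κ.ord.ToType :=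
  ToType.mk ⟨x, Set.mem_Iio.2 hx⟩

theorem toO_mk {κ : Cardinal.{0}} (x : Ordinal.{0}) (hx : x < κ.ord) :
    toO (κ := κ) (ofO x hx) = x := by
  unfold toO ofO
  rw [ToType.mk.symm_apply_apply]

theorem toO_inj {κ : Cardinal.{0}} {a b : κ.ord.ToType} (h : toO a = toO b) : a = b := by
  unfold toO at h
  exact ToType.mk.symm.injective (Subtype.ext h)

theorem toO_lt_toO {κ : Cardinal.{0}} {a b : κ.ord.ToType} : toO a < toO b ↔ a < b := by
  unfold toO
  rw [Subtype.coe_lt_coe, OrderIso.lt_iff_lt]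

theorem toO_le_toO {κ : Cardinal.{0}} {a b : κ.ord.ToType} : toO a ≤ toO b ↔ a ≤ b := by
  unfold toO
  rw [Subtype.coe_le_coe, OrderIso.le_iff_le]

/-- the function transported to `κ` -/
noncomputable def tr {κ : Cardinal.{0}} (F : List Ordinal.{0} → Ordinal.{0})
    (hF : ∀ l, F l < κ.ord) (l : List κ.ord.ToType) : κ.ord.ToType :=
  ofO (F (l.map toO)) (hF _)

/-- the closure of a set under `F` -/
def clo {κ : Cardinal.{0}} (F : List Ordinal.{0} → Ordinal.{0})
    (hF : ∀ l, F l < κ.ord) (H : Set κ.ord.ToType) : Set Ordinal.{0} :=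
  toO '' {x | Gen (tr F hF) H x}

theorem clo_sub {κ : Cardinal.{0}} (F : List Ordinal.{0} → Ordinal.{0})
    (hF : ∀ l, F l < κ.ord) (H : Set κ.ord.ToType) : clo F hF H ⊆ Set.Iio κ.ord := by
  rintro _ ⟨x, -, rfl⟩
  exact toO_lt x

theorem clo_closed {κ : Cardinal.{0}} (F : List Ordinal.{0} → Ordinal.{0})
    (hF : ∀ l, F l < κ.ord) (H : Set κ.ord.ToType) : ClosedUnder F (clo F hF H) := by
  intro l hl
  have h1 : ∃ l' : List κ.ord.ToType, l'.map toO = l ∧ ∀ x ∈ l', Gen (tr F hF) H x := by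
    induction l with
    | nil => exact ⟨[], rfl, by simp⟩
    | cons a l ih =>
      obtain ⟨l', h1, h2⟩ := ih fun x hx => hl x (List.mem_cons_of_mem _ hx)
      obtain ⟨a', h3, h4⟩ := hl a (List.mem_cons_self)
      refine ⟨a' :: l', by rw [List.map_cons, h1, h4], ?_⟩
      intro x hx
      rcases List.mem_cons.1 hx with rfl | hx
      · exact h3
      · exact h2 x hx
  obtain ⟨l', rfl, h2⟩ := h1
  refine ⟨tr F hF l', Gen.app h2, ?_⟩
  unfold tr
  rw [toO_mk]

theorem sub_clo {κ : Cardinal.{0}} (F : List Ordinal.{0} → Ordinal.{0})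
    (hF : ∀ l, F l < κ.ord) (H : Set κ.ord.ToType) (x : κ.ord.ToType) (hx : x ∈ H) :
    toO x ∈ clo F hF H := ⟨x, Gen.base hx, rfl⟩

theorem unbdd_of_card {κ : Cardinal.{0}} (hκ : ℵ₀ < κ) {H : Set κ.ord.ToType} (hH : #H = κ)
    (a : κ.ord.ToType) : ∃ b ∈ H, a < b := by
  by_contra hcon
  push Not at hcon
  have h1 : H ⊆ insert a (Set.Iio a) := by
    intro b hb
    rcases (hcon b hb).lt_or_eq with h | h
    · exact Or.inr h
    · exact Or.inl h
  have h2 := (Cardinal.mk_le_mk_of_subset h1).trans Cardinal.mk_insert_le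
  have h3 : #(Set.Iio a) < κ := Cardinal.mk_Iio_toType_ord_lt a
  have h4 : #(Set.Iio a) + 1 < κ :=
    Cardinal.add_lt_of_lt hκ.le h3 (Cardinal.one_lt_aleph0.trans hκ)
  rw [hH] at h2
  exact absurd (h2.trans_lt h4) (lt_irrefl _)

/-- A function on the finite sets all of whose full sets of values contain the closures. -/
theorem exists_fun_clo {κ : Cardinal.{0}} (hκ : ℵ₀ < κ) (F : List Ordinal.{0} → Ordinal.{0})
    (hF : ∀ l, F l < κ.ord) : ∃ f : Finset κ.ord.ToType → κ.ord.ToType,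
      ∀ H : Set κ.ord.ToType, #H = κ → ∀ y, (∀ s : Finset κ.ord.ToType,
        (s : Set κ.ord.ToType) ⊆ H → f s ≠ y) → toO y ∉ clo F hF H := by
  have hne : Nonempty κ.ord.ToType := by
    rw [← Cardinal.mk_ne_zero_iff, Cardinal.mk_ord_toType]
    exact (Cardinal.aleph0_pos.trans hκ).ne'
  obtain ⟨f, hf⟩ := exists_fun (tr F hF) (Classical.choice hne)
  refine ⟨f, fun H hH y hy h => ?_⟩
  obtain ⟨x, hx, hxy⟩ := h
  have h1 := toO_inj hxy
  subst h1
  obtain ⟨s, hs, h2⟩ := hf H (unbdd_of_card hκ hH) x hx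
  exact hy s hs h2

/-- Every function on a Jónsson cardinal has a proper closed set of full size. -/
theorem IsJonsson.closed {κ : Cardinal.{0}} (h : IsJonsson κ)
    (F : List Ordinal.{0} → Ordinal.{0}) (hF : ∀ l, F l < κ.ord) :
    ∃ X ⊆ Set.Iio κ.ord, X ≠ Set.Iio κ.ord ∧ (∀ a < κ.ord, ∃ x ∈ X, a < x) ∧ ClosedUnder F X := by
  obtain ⟨f, hf⟩ := exists_fun_clo h.1 F hF
  obtain ⟨H, hH, y, hy⟩ := h.2 f
  refine ⟨clo F hF H, clo_sub F hF H, ?_, ?_, clo_closed F hF H⟩
  · intro hc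
    have h1 := hf H hH y hy
    rw [hc] at h1
    exact h1 (toO_lt y)
  · intro a ha
    obtain ⟨b, hb, h1⟩ := unbdd_of_card h.1 hH (ofO a ha)
    refine ⟨toO b, sub_clo F hF H b hb, ?_⟩
    rw [← toO_lt_toO, toO_mk] at h1
    exact h1

end Pool.Agent.H548
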