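import Pool.Agent.H548.Defs

/-!
# The structure of closed sets above a limit point
-/

set_option autoImplicit false

namespace Pool.Agent.H548

open Cardinal Ordinal Set Order

theorem unb_card {μ : Cardinal.{0}} (hμ : μ ≤ μ.ord.cof) {H : Set μ.ord.ToType}
    (hH : ∀ a, ∃ b ∈ H, a ≤ b) : #H = μ := by
  apply le_antisymm
  · refine (mk_set_le H).trans ?_
    rw [Cardinal.mk_ord_toType]
  · have h1 : IsCofinal H := hH
    have h2 := Order.cof_le h1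
    rw [Ordinal.cof_toType] at h2
    exact hμ.trans h2

/-- A Jónsson algebra on a regular non-Jónsson cardinal. -/
theorem exists_alg {μ : Cardinal.{0}} (h0 : ℵ₀ < μ) (hμ : μ ≤ μ.ord.cof) (h : ¬ IsJonsson μ) :
    ∃ g : List Ordinal.{0} → Ordinal.{0}, (∀ l, g l < μ.ord) ∧ ∀ X ⊆ Set.Iio μ.ord,
      (∀ a < μ.ord, ∃ x ∈ X, a ≤ x) → (∀ l : List Ordinal.{0}, (∀ x ∈ l, x ∈ X) → g l ∈ X) →
      X = Set.Iio μ.ord := by
  classical
  unfold IsJonsson at h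
  push Not at h
  obtain ⟨f, hf⟩ := h h0
  have hpos : (0 : Ordinal.{0}) < μ.ord := by
    rw [pos_iff_ne_zero]
    intro hc
    rw [Cardinal.ord_eq_zero] at hc
    rw [hc] at h0
    exact not_lt_bot h0
  let cv : Ordinal.{0} → μ.ord.ToType := fun x =>
    if hx : x ∈ Set.Iio μ.ord then ToType.mk ⟨x, hx⟩ else ToType.mk ⟨0, hpos⟩
  refine ⟨fun l => (ToType.mk.symm (f (l.map cv).toFinset)).1, fun l => ?_, fun X hX hu hcl => ?_⟩
  · exact (ToType.mk.symm (f (l.map cv).toFinset)).2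
  · apply le_antisymm hX
    intro y hy
    let H : Set μ.ord.ToType := {a | (ToType.mk.symm a).1 ∈ X}
    have hH : #H = μ := by
      apply unb_card hμ
      intro a
      obtain ⟨x, hx, h1⟩ := hu (ToType.mk.symm a).1 (ToType.mk.symm a).2
      refine ⟨ToType.mk ⟨x, hX hx⟩, ?_, ?_⟩
      · show (ToType.mk.symm (ToType.mk ⟨x, hX hx⟩)).1 ∈ X
        simpa using hx
      · rw [← OrderIso.symm_apply_le]
        exact h1
    obtain ⟨s, hs, h1⟩ := hf H hH (ToType.mk ⟨y, hy⟩)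
    have h2 := hcl (s.toList.map fun a => (ToType.mk.symm a).1) (by
      intro x hx
      simp only [List.mem_map, Finset.mem_toList] at hx
      obtain ⟨a, ha, rfl⟩ := hx
      exact hs ha)
    have h3 : ((s.toList.map fun a => (ToType.mk.symm a).1).map cv).toFinset = s := by
      rw [List.map_map]
      have h4 : (cv ∘ fun a : μ.ord.ToType => (ToType.mk.symm a).1) = id := by
        funext a
        have h5 : (ToType.mk.symm a).1 ∈ Set.Iio μ.ord := (ToType.mk.symm a).2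
        show (if hx : (ToType.mk.symm a).1 ∈ Set.Iio μ.ord then ToType.mk ⟨_, hx⟩
          else ToType.mk ⟨0, hpos⟩) = a
        rw [dif_pos h5]
        exact ToType.mk.apply_symm_apply a
      rw [h4, List.map_id, Finset.toList_toFinset]
    change (ToType.mk.symm (f ((s.toList.map fun a => (ToType.mk.symm a).1).map cv).toFinset)).1 ∈ X
      at h2
    rw [h3, h1, ToType.mk.symm_apply_apply] at h2
    exact h2

/-- A cofinal family of minimal size. -/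
theorem exists_cofinal_family (b : Ordinal.{0}) : ∃ (ι : Type) (f : ι → Ordinal.{0}),
    #ι = b.cof ∧ (∀ i, f i < b) ∧ ∀ a < b, ∃ i, a ≤ f i := by
  obtain ⟨s, hs, h1⟩ := Order.exists_cof_eq (α := b.ToType)
  refine ⟨s, fun i => (ToType.mk.symm i.1).1, ?_, fun i => (ToType.mk.symm i.1).2, fun a ha => ?_⟩
  · rw [h1, Ordinal.cof_toType]
  · obtain ⟨x, hx, h2⟩ := hs (ToType.mk ⟨a, ha⟩)
    refine ⟨⟨x, hx⟩, ?_⟩
    rw [← OrderIso.le_symm_apply] at h2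
    exact h2

/-- The closure conditions. -/
structure Good (C : Set Ordinal.{0}) (g : Ordinal.{0} → List Ordinal.{0} → Ordinal.{0})
    (A : Ordinal.{0} → Set Ordinal.{0}) (X : Set Ordinal.{0}) : Prop where
  alg : ∀ a ∈ X, ∀ l : List Ordinal.{0}, (∀ x ∈ l, x ∈ X) → g a l ∈ X
  clb : ∀ b ∈ X, sSup (C ∩ Set.Iio b) ∈ X
  prd : ∀ b ∈ X, sSup (Set.Iio b) ∈ X
  cf : ∀ b ∈ X, b.cof.ord ∈ X
  ee : ∀ b ∈ X, ∀ c ∈ X, c < b → sInf {x ∈ A b | c ≤ x} ∈ X
  pw : ∀ b ∈ X, (sInf {θ : Cardinal.{0} | b.card ≤ 2 ^ θ}).ord ∈ X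

/-- Intersections of sets with the closure conditions. -/
theorem Good.inter {C g A} {ι : Type} {X : ι → Set Ordinal.{0}} (h : ∀ i, Good C g A (X i)) :
    Good C g A {x | ∀ i, x ∈ X i} where
  alg a ha l hl i := (h i).alg a (ha i) l fun x hx => hl x hx i
  clb b hb i := (h i).clb b (hb i)
  prd b hb i := (h i).prd b (hb i)
  cf b hb i := (h i).cf b (hb i)
  ee b hb c hc hcb i := (h i).ee b (hb i) c (hc i) hcb
  pw b hb i := (h i).pw b (hb i)

theorem bdd_Iio (b : Ordinal.{0}) (S : Set Ordinal.{0}) (hS : S ⊆ Set.Iio b) : BddAbove S :=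
  ⟨b, fun _ hx => (hS hx).le⟩

/-- The least element of a closed set above a limit point `δ` which is inaccessible. -/
theorem key {C g A} {X : Set Ordinal.{0}} (hX : Good C g A X)
    (hA : ∀ b, (A b ⊆ Set.Iio b) ∧ (∀ a < b, ∃ x ∈ A b, a ≤ x) ∧ ∃ (ι : Type) (f : ι → Ordinal.{0}),
      #ι = b.cof ∧ A b = Set.range f)
    {μ : Cardinal.{0}} (hμ : μ.IsInaccessible) (hδC : μ.ord ∈ C) (hδX : μ.ord ∉ X)
    (hlim : ∀ a < μ.ord, ∃ x ∈ X, a < x ∧ x < μ.ord) {β : Ordinal.{0}} (hβ : β ∈ X)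
    (hδβ : μ.ord ≤ β) (hmin : ∀ x ∈ X, μ.ord ≤ x → β ≤ x)
    (hC : (∀ a < β, ∃ c ∈ C, a < c ∧ c < β) → β ∈ C) :
    β ∈ C ∧ μ.ord < β ∧ ∃ ν : Cardinal.{0}, ν.IsInaccessible ∧ β = ν.ord := by
  have hlt : μ.ord < β := lt_of_le_of_ne hδβ fun h => hδX (h ▸ hβ)
  have hsmall : ∀ x ∈ X, x < β → x < μ.ord := fun x hx hxb => by
    by_contra hc
    exact absurd (hmin x hx (not_lt.1 hc)) (not_le.2 hxb)
  -- β ∈ C
  have h1 : β ∈ C := by
    apply hC
    have h2 := hX.clb β hβ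
    have h3 : μ.ord ≤ sSup (C ∩ Set.Iio β) :=
      le_csSup (bdd_Iio β _ inter_subset_right) ⟨hδC, hlt⟩
    have h4 := hmin _ h2 h3
    intro a ha
    obtain ⟨c, hc, hac⟩ := exists_lt_of_lt_csSup' (ha.trans_le h4)
    exact ⟨c, hc.1, hac, hc.2⟩
  -- β is a limit
  have h2 : ∀ a < β, a + 1 < β := by
    intro a ha
    by_contra hc
    have h3 := hX.prd β hβ
    have h4 : μ.ord ≤ sSup (Set.Iio β) := le_csSup (bdd_Iio β _ subset_rfl) hlt
    have h5 := hmin _ h3 h4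
    have h6 : sSup (Set.Iio β) ≤ a := by
      apply csSup_le' 
      intro x hx
      exact Order.lt_add_one_iff.1 (lt_of_lt_of_le hx (not_lt.1 hc))
    exact absurd (h5.trans h6) (not_le.2 ha)
  -- β is regular
  have h3 : β.cof.ord = β := by
    by_contra hne
    have h4 : β.cof.ord < β := lt_of_le_of_ne (Ordinal.ord_cof_le β) hne
    have h5 : β.cof.ord < μ.ord := hsmall _ (hX.cf β hβ) h4
    rw [Cardinal.ord_lt_ord] at h5
    obtain ⟨hA1, hA2, ι, f, hι, hAf⟩ := hA β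
    have h6 : (⨆ i, if f i < μ.ord then f i else 0) < μ.ord := by
      apply Ordinal.iSup_lt_of_lt_cof
      · rw [hι]
        exact h5.trans_le hμ.le_cof_ord
      · intro i
        split_ifs with h
        · exact h
        · exact hμ.isRegular.ord_pos
    obtain ⟨c, hcX, hc1, hc2⟩ := hlim _ h6
    have h7 := hX.ee β hβ c hcX (hc2.trans hlt)
    have h8 : sInf {x ∈ A β | c ≤ x} ∈ {x ∈ A β | c ≤ x} := by
      apply csInf_mem
      obtain ⟨x, hx, hcx⟩ := hA2 c (hc2.trans hlt)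
      exact ⟨x, hx, hcx⟩
    have h9 := hsmall _ h7 (hA1 h8.1)
    obtain ⟨h10, h11⟩ := h8
    rw [hAf] at h10
    obtain ⟨i, hi⟩ := h10
    have h12 : (if f i < μ.ord then f i else 0) ≤ ⨆ i, if f i < μ.ord then f i else 0 :=
      Ordinal.le_iSup _ i
    rw [hi, ← hAf, if_pos h9] at h12
    exact absurd ((h11.trans h12).trans_lt hc1) (lt_irrefl _)
  refine ⟨h1, hlt, β.cof, ?_, h3.symm⟩
  have h4 : μ < β.cof := by
    rw [← Cardinal.ord_lt_ord, h3]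
    exact hlt
  refine ⟨hμ.aleph0_lt.trans h4, ?_, ?_⟩
  · rw [Ordinal.cof_ord_cof]
  · intro θ₀ hθ₀
    by_contra hc
    have h5 : β.card = β.cof := by
      conv_lhs => rw [← h3]
      rw [Cardinal.card_ord]
    have h6 : θ₀ ∈ {θ : Cardinal.{0} | β.card ≤ 2 ^ θ} := by
      show β.card ≤ 2 ^ θ₀
      rw [h5]
      exact not_lt.1 hc
    have h7 := csInf_mem (s := {θ : Cardinal.{0} | β.card ≤ 2 ^ θ}) ⟨_, h6⟩
    have h8 : sInf {θ : Cardinal.{0} | β.card ≤ 2 ^ θ} ≤ θ₀ := csInf_le' h6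
    have h9 := hX.pw β hβ
    have h10 : (sInf {θ : Cardinal.{0} | β.card ≤ 2 ^ θ}).ord < β := by
      conv_rhs => rw [← h3]
      rw [Cardinal.ord_lt_ord]
      exact h8.trans_lt hθ₀
    have h11 := hsmall _ h9 h10
    rw [Cardinal.ord_lt_ord] at h11
    have h12 := hμ.isStrongPrelimit h11
    have h13 : β.card ≤ 2 ^ sInf {θ : Cardinal.{0} | β.card ≤ 2 ^ θ} := h7
    rw [h5] at h13
    exact absurd (h13.trans_lt (h5 ▸ h12)) (not_lt.2 (by exact h4.le))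

/-- The chain argument. -/
theorem chain_contra {κ : Cardinal.{0}} {C g A}
    (hA : ∀ b, (A b ⊆ Set.Iio b) ∧ (∀ a < b, ∃ x ∈ A b, a ≤ x) ∧ ∃ (ι : Type) (f : ι → Ordinal.{0}),
      #ι = b.cof ∧ A b = Set.range f)
    (hC : ∀ b < κ.ord, 0 < b → (∀ a < b, ∃ c ∈ C, a < c ∧ c < b) → b ∈ C)
    (hg : ∀ ν : Cardinal.{0}, ν < κ → ν.IsInaccessible → ν.ord ∈ C → ∀ Z ⊆ Set.Iio ν.ord,
      (∀ a < ν.ord, ∃ x ∈ Z, a ≤ x) →
      (∀ l : List Ordinal.{0}, (∀ x ∈ l, x ∈ Z) → g ν.ord l ∈ Z) → Z = Set.Iio ν.ord)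
    (hg2 : ∀ ν : Cardinal.{0}, ν < κ → ν.IsInaccessible → ν.ord ∈ C → ∀ l, g ν.ord l < ν.ord)
    {X : ℕ → Set Ordinal.{0}} (hsub : ∀ n, X n ⊆ Set.Iio κ.ord) (hgood : ∀ n, Good C g A (X n))
    (hS : ∀ i n, i < n → ∀ β ∈ X n, sSup (X i ∩ Set.Iio β) ∈ X n)
    (hunb : ∀ a < κ.ord, ∃ y, a < y ∧ ∀ n, y ∈ X n)
    {μ : Cardinal.{0}} (hμκ : μ < κ) (hμ : μ.IsInaccessible) (hδC : μ.ord ∈ C)
    (hmiss : ∀ n, ∃ i < μ.ord, i ∉ X n)
    (hlim : ∀ a < μ.ord, ∃ y, a < y ∧ y < μ.ord ∧ ∀ n, y ∈ X n) : False := by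
  -- no `X n` is unbounded in a non-Jónsson cardinal above the missing ordinals, if it contains it
  have hbd : ∀ n, ∀ ν : Cardinal.{0}, ν < κ → ν.IsInaccessible → ν.ord ∈ C → μ ≤ ν → ν.ord ∈ X n →
      ∃ a < ν.ord, ∀ x ∈ X n, x < ν.ord → x ≤ a := by
    intro n ν hνκ hν hνC hμν hνX
    by_contra hcon
    push Not at hcon
    have h1 : X n ∩ Set.Iio ν.ord = Set.Iio ν.ord := by
      apply hg ν hνκ hν hνC _ inter_subset_right
      · intro a ha
        obtain ⟨x, hx, hxν, hax⟩ := hcon a ha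
        exact ⟨x, ⟨hx, hxν⟩, hax.le⟩
      · intro l hl
        exact ⟨(hgood n).alg _ hνX l fun x hx => (hl x hx).1, hg2 ν hνκ hν hνC l⟩
    obtain ⟨i, hi, hin⟩ := hmiss n
    have h2 : i ∈ X n ∩ Set.Iio ν.ord := by
      rw [h1]
      exact hi.trans_le (Cardinal.ord_le_ord.2 hμν)
    exact hin h2.1
  let Xt : ℕ → Set Ordinal.{0} := fun k => {x | ∀ i : ℕ, x ∈ X (k + i)}
  have hXt : ∀ k, Good C g A (Xt k) := fun k => Good.inter fun i => hgood (k + i)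
  have hXtX : ∀ k, Xt k ⊆ X k := fun k x hx => hx 0
  have hδκ : μ.ord < κ.ord := Cardinal.ord_lt_ord.2 hμκ
  have hδX : ∀ k, μ.ord ∉ Xt k := by
    intro k hk
    obtain ⟨a, ha, h1⟩ := hbd k μ hμκ hμ hδC le_rfl (hXtX k hk)
    obtain ⟨y, hy1, hy2, hy3⟩ := hlim a ha
    exact absurd (h1 y (hy3 k) hy2) (not_le.2 hy1)
  have hne : ∀ k, ∃ x, x ∈ Xt k ∧ μ.ord ≤ x := by
    intro k
    obtain ⟨y, hy1, hy2⟩ := hunb _ hδκ
    exact ⟨y, fun i => hy2 _, hy1.le⟩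
  let β : ℕ → Ordinal.{0} := fun k => sInf {x | x ∈ Xt k ∧ μ.ord ≤ x}
  have hβ : ∀ k, β k ∈ Xt k ∧ μ.ord ≤ β k := fun k => csInf_mem (hne k)
  have hmin : ∀ k, ∀ x ∈ Xt k, μ.ord ≤ x → β k ≤ x := fun k x hx h => csInf_le' ⟨hx, h⟩
  have hstep : ∀ k, β (k + 1) < β k := by
    intro k
    have hβκ : β k < κ.ord := hsub k (hXtX k (hβ k).1)
    obtain ⟨h1, h2, ν, hν, hβν⟩ := key (hXt k) hA hμ hδC (hδX k) (fun a ha => by
      obtain ⟨y, hy1, hy2, hy3⟩ := hlim a ha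
      exact ⟨y, fun i => hy3 _, hy1, hy2⟩) (hβ k).1 (hβ k).2 (hmin k)
      (hC _ hβκ (hμ.isRegular.ord_pos.trans_le (hβ k).2))
    have hνκ : ν < κ := by
      rw [← Cardinal.ord_lt_ord, ← hβν]
      exact hβκ
    have hμν : μ ≤ ν := by
      rw [← Cardinal.ord_le_ord, ← hβν]
      exact h2.le
    obtain ⟨a, ha, h3⟩ := hbd k ν hνκ hν (hβν ▸ h1) hμν (hβν ▸ hXtX k (hβ k).1)
    have h4 : sSup (X k ∩ Set.Iio (β k)) ∈ Xt (k + 1) := by
      intro i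
      exact hS k _ (by omega) _ (by
        have := (hβ k).1 (1 + i)
        rwa [← add_assoc] at this)
    have h5 : μ.ord ≤ sSup (X k ∩ Set.Iio (β k)) := by
      by_contra hc
      rw [not_le] at hc
      obtain ⟨y, hy1, hy2, hy3⟩ := hlim _ hc
      exact absurd (le_csSup (bdd_Iio (β k) _ inter_subset_right) ⟨hy3 k, hy2.trans h2⟩)
        (not_le.2 hy1)
    have h6 : sSup (X k ∩ Set.Iio (β k)) ≤ a := by
      apply csSup_le'
      intro x hx
      exact h3 x hx.1 (hβν ▸ hx.2)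
    exact ((hmin (k + 1) _ h4 h5).trans h6).trans_lt (hβν ▸ ha)
  obtain ⟨b, hb, hbmin⟩ := (wellFounded_lt (α := Ordinal.{0})).has_min (Set.range β) ⟨_, 0, rfl⟩
  obtain ⟨k, rfl⟩ := hb
  exact hbmin _ ⟨k + 1, rfl⟩ (hstep k)

end Pool.Agent.H548
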