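import Pool.Agent.H548.Seq

/-!
# Chains when the regular Jónsson cardinals are bounded
-/

set_option autoImplicit false

namespace Pool.Agent.H548

open Cardinal Ordinal Set Order

/-- a cofinal increasing sequence in `b` -/
noncomputable def fsq (b : Ordinal.{0}) : Set.Iio b.cof.ord → Set.Iio b :=
  (exists_isFundamentalSeq (o := b) rfl).choose

theorem fsq_spec (b : Ordinal.{0}) : IsFundamentalSeq (fsq b) :=
  (exists_isFundamentalSeq (o := b) rfl).choose_spec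

open Classical in
/-- the same on ordinals -/
noncomputable def ea (b z : Ordinal.{0}) : Ordinal.{0} :=
  if h : z < b.cof.ord then (fsq b ⟨z, h⟩).1 else 0

theorem ea_lt {b z : Ordinal.{0}} (h : z < b.cof.ord) : ea b z < b := by
  unfold ea
  rw [dif_pos h]
  exact (fsq b ⟨z, h⟩).2

theorem ea_mono {b z z' : Ordinal.{0}} (h : z < z') (h' : z' < b.cof.ord) : ea b z < ea b z' := by
  unfold ea
  rw [dif_pos h', dif_pos (h.trans h')]
  exact (fsq_spec b).strictMono (show (⟨z, h.trans h'⟩ : Set.Iio b.cof.ord) < ⟨z', h'⟩ from h)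

theorem ea_cof {b x : Ordinal.{0}} (h : x < b) : ∃ z, z < b.cof.ord ∧ x ≤ ea b z := by
  obtain ⟨_, ⟨z, rfl⟩, hz⟩ := (fsq_spec b).isCofinal_range ⟨x, h⟩
  refine ⟨z.1, z.2, ?_⟩
  unfold ea
  rw [dif_pos (show z.1 < b.cof.ord from z.2)]
  exact hz

/-- the index function -/
noncomputable def ixx (b x : Ordinal.{0}) : Ordinal.{0} := sInf {z | z < b.cof.ord ∧ x ≤ ea b z}

theorem ixx_spec {b x : Ordinal.{0}} (h : x < b) : ixx b x < b.cof.ord ∧ x ≤ ea b (ixx b x) :=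
  csInf_mem (s := {z | z < b.cof.ord ∧ x ≤ ea b z}) (ea_cof h)

/-- The closure conditions. -/
structure Good2 (g : Ordinal.{0} → List Ordinal.{0} → Ordinal.{0}) (X : Set Ordinal.{0}) :
    Prop where
  alg : ∀ a ∈ X, ∀ l : List Ordinal.{0}, (∀ x ∈ l, x ∈ X) → g a l ∈ X
  prd : ∀ b ∈ X, sSup (Set.Iio b) ∈ X
  cf : ∀ b ∈ X, b.cof.ord ∈ X
  ea : ∀ b ∈ X, ∀ z ∈ X, z < b.cof.ord → ea b z ∈ X
  ix : ∀ b ∈ X, ∀ x ∈ X, x < b → ixx b x ∈ X

theorem Good2.inter {g} {ι : Type} {X : ι → Set Ordinal.{0}} (h : ∀ i, Good2 g (X i)) :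
    Good2 g {x | ∀ i, x ∈ X i} where
  alg a ha l hl i := (h i).alg a (ha i) l fun x hx => hl x hx i
  prd b hb i := (h i).prd b (hb i)
  cf b hb i := (h i).cf b (hb i)
  ea b hb z hz hzb i := (h i).ea b (hb i) z (hz i) hzb
  ix b hb x hx hxb i := (h i).ix b (hb i) x (hx i) hxb

/-- The indices of a limit point of `X` in an element of `X`. -/
theorem index_lim {g} {X : Set Ordinal.{0}} (hX : Good2 g X) {δ β : Ordinal.{0}}
    (hlim : ∀ a < δ, ∃ x ∈ X, a < x ∧ x < δ) (hβ : β ∈ X) (hδβ : δ ≤ β)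
    (hsmall : ∀ x ∈ X, x < β → x < δ) :
    ∃ ξ ≤ β.cof.ord, (δ < β → ξ < β.cof.ord) ∧ ξ.cof = δ.cof ∧
      ∀ a < ξ, ∃ x ∈ X, a < x ∧ x < ξ := by
  have hxs : ∀ x ∈ X, x < δ → ixx β x ∈ X ∧ ixx β x < β.cof.ord ∧ x ≤ ea β (ixx β x) ∧
      ea β (ixx β x) < δ := by
    intro x hx hxδ
    have h1 := ixx_spec (hxδ.trans_le hδβ)
    have h2 := hX.ix β hβ x hx (hxδ.trans_le hδβ)
    exact ⟨h2, h1.1, h1.2, hsmall _ (hX.ea β hβ _ h2 h1.1) (ea_lt h1.1)⟩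
  -- the index
  obtain ⟨ξ, hξ, h1, h2⟩ : ∃ ξ ≤ β.cof.ord, (δ < β → ξ < β.cof.ord) ∧
      ∀ z < β.cof.ord, (z < ξ ↔ ea β z < δ) := by
    by_cases hne : ∃ z, z < β.cof.ord ∧ δ ≤ ea β z
    · have h3 := csInf_mem (s := {z | z < β.cof.ord ∧ δ ≤ ea β z}) hne
      refine ⟨_, h3.1.le, fun _ => h3.1, fun z hz => ⟨fun h => ?_, fun h => ?_⟩⟩
      · by_contra hc
        exact absurd (csInf_le' (show z ∈ {z | z < β.cof.ord ∧ δ ≤ ea β z} from
          ⟨hz, not_lt.1 hc⟩)) (not_le.2 h)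
      · by_contra hc
        rw [not_lt] at hc
        rcases hc.lt_or_eq with h4 | h4
        · exact absurd (h3.2.trans (ea_mono h4 hz).le) (not_le.2 h)
        · rw [← h4] at h
          exact absurd h (not_lt.2 h3.2)
    · push Not at hne
      refine ⟨_, le_rfl, fun h => ?_, fun z hz => ⟨fun _ => hne z hz, fun _ => hz⟩⟩
      obtain ⟨z, hz, h3⟩ := ea_cof h
      exact absurd (hne z hz) (not_lt.2 h3)
  refine ⟨ξ, hξ, h1, ?_, ?_⟩
  · let f : Set.Iio ξ → Set.Iio δ := fun z => ⟨ea β z.1, (h2 z.1 (lt_of_lt_of_le z.2 hξ)).1 z.2⟩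
    have hf : StrictMono f := fun z z' hzz => ea_mono hzz (lt_of_lt_of_le z'.2 hξ)
    have hf' : IsCofinal (Set.range f) := by
      intro a
      obtain ⟨x, hx, hax, hxδ⟩ := hlim a.1 a.2
      obtain ⟨h3, h4, h5, h6⟩ := hxs x hx hxδ
      refine ⟨_, ⟨⟨ixx β x, (h2 _ h4).2 h6⟩, rfl⟩, ?_⟩
      exact hax.le.trans h5
    have h3 := Order.cof_congr_of_strictMono hf hf'
    rw [Ordinal.cof_Iio, Ordinal.cof_Iio, ← Ordinal.lift_cof, ← Ordinal.lift_cof,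
      Cardinal.lift_inj] at h3
    exact h3
  · intro a ha
    have h3 := (h2 a (ha.trans_le hξ)).1 ha
    obtain ⟨x, hx, hax, hxδ⟩ := hlim _ h3
    obtain ⟨h4, h5, h6, h7⟩ := hxs x hx hxδ
    refine ⟨_, h4, ?_, (h2 _ h5).2 h7⟩
    by_contra hc
    rw [not_lt] at hc
    rcases hc.lt_or_eq with h8 | h8
    · exact absurd ((h6.trans (ea_mono h8 (ha.trans_le hξ)).le)) (not_le.2 hax)
    · rw [h8] at h6
      exact absurd h6 (not_le.2 hax)

/-- The chain argument. -/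
theorem chain_contra2 {κ : Cardinal.{0}} {g} {τ : Cardinal.{0}} (hτ0 : ℵ₀ < τ)
    (hg : ∀ ν : Cardinal.{0}, ν < κ → ν.IsRegular → τ ≤ ν → ∀ Z ⊆ Set.Iio ν.ord,
      (∀ a < ν.ord, ∃ x ∈ Z, a ≤ x) →
      (∀ l : List Ordinal.{0}, (∀ x ∈ l, x ∈ Z) → g ν.ord l ∈ Z) → Z = Set.Iio ν.ord)
    (hg2 : ∀ ν : Cardinal.{0}, ν < κ → ν.IsRegular → τ ≤ ν → ∀ l, g ν.ord l < ν.ord)
    {X : ℕ → Set Ordinal.{0}} (hsub : ∀ n, X n ⊆ Set.Iio κ.ord) (hgood : ∀ n, Good2 g (X n))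
    (hS : ∀ i n, i < n → ∀ β ∈ X n, sSup (X i ∩ Set.Iio β) ∈ X n)
    (hunb : ∀ a < κ.ord, ∃ y, a < y ∧ ∀ n, y ∈ X n) (hτκ : τ < κ) (hτ : τ.IsRegular)
    (hmiss : ∀ n, ∃ i < τ.ord, i ∉ X n)
    (hpt : ∃ δ < κ.ord, δ.cof = τ ∧ ∀ a < δ, ∃ y, a < y ∧ y < δ ∧ ∀ n, y ∈ X n) : False := by
  have hbd : ∀ n, ∀ ν : Cardinal.{0}, ν < κ → ν.IsRegular → τ ≤ ν → ν.ord ∈ X n →
      ∃ a < ν.ord, ∀ x ∈ X n, x < ν.ord → x ≤ a := by
    intro n ν hνκ hν hτν hνX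
    by_contra hcon
    push Not at hcon
    have h1 : X n ∩ Set.Iio ν.ord = Set.Iio ν.ord := by
      apply hg ν hνκ hν hτν _ inter_subset_right
      · intro a ha
        obtain ⟨x, hx, hxν, hax⟩ := hcon a ha
        exact ⟨x, ⟨hx, hxν⟩, hax.le⟩
      · intro l hl
        exact ⟨(hgood n).alg _ hνX l fun x hx => (hl x hx).1, hg2 ν hνκ hν hτν l⟩
    obtain ⟨i, hi, hin⟩ := hmiss n
    have h2 : i ∈ X n ∩ Set.Iio ν.ord := by
      rw [h1]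
      exact hi.trans_le (Cardinal.ord_le_ord.2 hτν)
    exact hin h2.1
  let Xt : ℕ → Set Ordinal.{0} := fun k => {x | ∀ i : ℕ, x ∈ X (k + i)}
  have hXt : ∀ k, Good2 g (Xt k) := fun k => Good2.inter fun i => hgood (k + i)
  have hXtX : ∀ k, Xt k ⊆ X k := fun k x hx => hx 0
  have hXtm : ∀ k, Xt k ⊆ Xt (k + 1) := fun k x hx i => by
    have := hx (1 + i)
    rwa [← add_assoc] at this
  -- the limit points of cofinality `τ`
  let L : ℕ → Set Ordinal.{0} := fun k =>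
    {δ | δ < κ.ord ∧ δ.cof = τ ∧ ∀ a < δ, ∃ x ∈ Xt k, a < x ∧ x < δ}
  have hLne : ∀ k, (L k).Nonempty := by
    intro k
    obtain ⟨δ, h1, h2, h3⟩ := hpt
    refine ⟨δ, h1, h2, fun a ha => ?_⟩
    obtain ⟨y, h4, h5, h6⟩ := h3 a ha
    exact ⟨y, fun i => h6 _, h4, h5⟩
  have hLm : ∀ k, L k ⊆ L (k + 1) := by
    rintro k δ ⟨h1, h2, h3⟩
    refine ⟨h1, h2, fun a ha => ?_⟩
    obtain ⟨x, hx, h4, h5⟩ := h3 a ha
    exact ⟨x, hXtm k hx, h4, h5⟩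
  have hanti : ∀ k j, sInf (L (k + j)) ≤ sInf (L k) := by
    intro k j
    induction j with
    | zero => exact le_rfl
    | succ j ih => exact (csInf_le_csInf (OrderBot.bddBelow _) (hLne _) (hLm (k + j))).trans ih
  obtain ⟨k₀, hk₀⟩ : ∃ k₀, ∀ k, sInf (L k₀) ≤ sInf (L k) := by
    obtain ⟨b, ⟨k₀, rfl⟩, hmin⟩ := (wellFounded_lt (α := Ordinal.{0})).has_min
      (Set.range fun k => sInf (L k)) ⟨_, 0, rfl⟩
    exact ⟨k₀, fun k => not_lt.1 (hmin _ ⟨k, rfl⟩)⟩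
  set δ := sInf (L k₀) with hδdef
  have hδL : ∀ j, δ ∈ L (k₀ + j) ∧ ∀ δ' ∈ L (k₀ + j), δ ≤ δ' := by
    intro j
    have h1 : sInf (L (k₀ + j)) = δ := le_antisymm (hanti k₀ j) (hk₀ _)
    refine ⟨?_, fun δ' hδ' => ?_⟩
    · rw [← h1]
      exact csInf_mem (hLne _)
    · rw [← h1]
      exact csInf_le' hδ'
  have hδκ : δ < κ.ord := (hδL 0).1.1
  have hδcof : δ.cof = τ := (hδL 0).1.2.1
  have hτδ : τ.ord ≤ δ := by
    rw [← hδcof]
    exact Ordinal.ord_cof_le δ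
  have hδX : ∀ j, δ ∉ Xt (k₀ + j) := by
    intro j hj
    obtain ⟨ξ, h1, -, h2, h3⟩ := index_lim (hXt (k₀ + j)) (hδL j).1.2.2 hj le_rfl
      (fun x _ h => h)
    have h4 : ξ = τ.ord := by
      rw [hδcof] at h1 h2
      apply le_antisymm h1
      rw [← h2]
      exact Ordinal.ord_cof_le ξ
    subst h4
    have h5 : τ.ord ∈ Xt (k₀ + j) := by
      rw [← hδcof]
      exact (hXt _).cf δ hj
    obtain ⟨a, ha, h6⟩ := hbd (k₀ + j) τ hτκ hτ le_rfl (hXtX _ h5)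
    obtain ⟨x, hx, h7, h8⟩ := h3 a ha
    exact absurd (h6 x (hXtX _ hx) h8) (not_le.2 h7)
  have hne : ∀ j, ∃ x, x ∈ Xt (k₀ + j) ∧ δ ≤ x := by
    intro j
    obtain ⟨y, hy1, hy2⟩ := hunb _ hδκ
    exact ⟨y, fun i => hy2 _, hy1.le⟩
  let β : ℕ → Ordinal.{0} := fun j => sInf {x | x ∈ Xt (k₀ + j) ∧ δ ≤ x}
  have hβ : ∀ j, β j ∈ Xt (k₀ + j) ∧ δ ≤ β j := fun j => csInf_mem (hne j)
  have hmin : ∀ j, ∀ x ∈ Xt (k₀ + j), δ ≤ x → β j ≤ x := fun j x hx h => csInf_le' ⟨hx, h⟩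
  have hstep : ∀ j, β (j + 1) < β j := by
    intro j
    have hβκ : β j < κ.ord := hsub _ (hXtX _ (hβ j).1)
    have hlt : δ < β j := lt_of_le_of_ne (hβ j).2 fun h => hδX j (h ▸ (hβ j).1)
    have hsmall : ∀ x ∈ Xt (k₀ + j), x < β j → x < δ := fun x hx hxb => by
      by_contra hc
      exact absurd (hmin j x hx (not_lt.1 hc)) (not_le.2 hxb)
    -- `β j` is regular
    have h3 : (β j).cof.ord = β j := by
      by_contra hne'
      have h4 : (β j).cof.ord < β j := lt_of_le_of_ne (Ordinal.ord_cof_le _) hne'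
      have h5 : (β j).cof.ord < δ := hsmall _ ((hXt _).cf _ (hβ j).1) h4
      obtain ⟨ξ, h6, h7, h8, h9⟩ := index_lim (hXt (k₀ + j)) (hδL j).1.2.2 (hβ j).1 (hβ j).2
        hsmall
      have h10 : ξ ∈ L (k₀ + j) := ⟨(h6.trans_lt h5).trans hδκ, h8.trans hδcof, h9⟩
      exact absurd ((hδL j).2 ξ h10) (not_le.2 (h6.trans_lt h5))
    set ν := (β j).cof with hν
    have hτν : τ < ν := by
      rw [← Cardinal.ord_lt_ord, h3]
      exact hτδ.trans_lt hlt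
    have hνreg : ν.IsRegular := by
      refine ⟨(hτ0.trans hτν).le, ?_⟩
      rw [hν, Ordinal.cof_ord_cof]
    have hνκ : ν < κ := by
      rw [← Cardinal.ord_lt_ord, h3]
      exact hβκ
    obtain ⟨a, ha, h4⟩ := hbd (k₀ + j) ν hνκ hνreg hτν.le (h3.symm ▸ hXtX _ (hβ j).1)
    rw [h3] at ha h4
    have h5 : sSup (X (k₀ + j) ∩ Set.Iio (β j)) ∈ Xt (k₀ + (j + 1)) := by
      intro i
      exact hS (k₀ + j) _ (by omega) _ (by
        have := (hβ j).1 (1 + i)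
        have h6 : k₀ + j + (1 + i) = k₀ + (j + 1) + i := by omega
        rwa [h6] at this)
    have h6 : δ ≤ sSup (X (k₀ + j) ∩ Set.Iio (β j)) := by
      by_contra hc
      rw [not_le] at hc
      obtain ⟨y, hy1, hy2, hy3⟩ := (hδL j).1.2.2 _ hc
      exact absurd (le_csSup (bdd_Iio (β j) _ inter_subset_right)
        ⟨hXtX _ hy1, hy3.trans hlt⟩) (not_le.2 hy2)
    have h7 : sSup (X (k₀ + j) ∩ Set.Iio (β j)) ≤ a := by
      apply csSup_le'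
      intro x hx
      exact h4 x hx.1 hx.2
    exact ((hmin (j + 1) _ h5 h6).trans h7).trans_lt ha
  obtain ⟨b, hb, hbmin⟩ := (wellFounded_lt (α := Ordinal.{0})).has_min (Set.range β) ⟨_, 0, rfl⟩
  obtain ⟨k, rfl⟩ := hb
  exact hbmin _ ⟨k + 1, rfl⟩ (hstep k)

end Pool.Agent.H548
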