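import Mathlib

/-!
# Jónsson cardinals: definitions and passage to closed sets
-/

set_option autoImplicit false

namespace Pool.Agent.H548

open Cardinal Ordinal Set Order

/-- `μ` is a Jónsson cardinal: `μ` is uncountable and `μ → [μ]^{<ω}_μ`, i.e. for every function `f`
on the finite subsets of `μ` with values in `μ` there is `H ⊆ μ` of size `μ` such that the finite
subsets of `H` do not take all the values. -/
def IsJonsson (μ : Cardinal.{0}) : Prop :=
  ℵ₀ < μ ∧ ∀ f : Finset μ.ord.ToType → μ.ord.ToType, ∃ H : Set μ.ord.ToType, #H = μ ∧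
    ∃ y, ∀ s : Finset μ.ord.ToType, (s : Set μ.ord.ToType) ⊆ H → f s ≠ y

/-- The strongly inaccessible cardinals below `κ`, as a set of ordinals below `κ`. -/
def InaccBelow (κ : Cardinal.{0}) : Set (Set.Iio κ.ord) :=
  {a | ∃ μ : Cardinal.{0}, μ.IsInaccessible ∧ a.1 = μ.ord}

/-- The strongly inaccessible Jónsson cardinals below `κ`, as a set of ordinals below `κ`. -/
def JonssonBelow (κ : Cardinal.{0}) : Set (Set.Iio κ.ord) :=
  {a | ∃ μ : Cardinal.{0}, μ.IsInaccessible ∧ IsJonsson μ ∧ a.1 = μ.ord}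

/-- `κ` is a (strongly) Mahlo cardinal. -/
def IsMahlo (κ : Cardinal.{0}) : Prop := κ.IsInaccessible ∧ IsStationary (InaccBelow κ)

/-- `X` is closed under `F`. -/
def ClosedUnder (F : List Ordinal.{0} → Ordinal.{0}) (X : Set Ordinal.{0}) : Prop :=
  ∀ l : List Ordinal.{0}, (∀ x ∈ l, x ∈ X) → F l ∈ X

/-! ### Codes for terms -/

section Codes

variable {K : Type} (F : List K → K)

/-- the set generated by `H` under `F` -/
inductive Gen (F : List K → K) (H : Set K) : K → Prop
  | base {x : K} : x ∈ H → Gen F H x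
  | app {l : List K} : (∀ x ∈ l, Gen F H x) → Gen F H (F l)

theorem lt_encode_of_mem : ∀ (l : List ℕ) (m : ℕ), m ∈ l → m < Encodable.encode l
  | [], m, h => by simp at h
  | a :: l, m, h => by
    rw [Encodable.encode_list_cons]
    rcases List.mem_cons.1 h with rfl | h
    · exact Nat.lt_succ_of_le (Nat.left_le_pair _ _)
    · exact Nat.lt_succ_of_le ((lt_encode_of_mem l m h).le.trans (Nat.right_le_pair _ _))

theorem lt_of_mem_ofNat (n m : ℕ) (h : m ∈ Denumerable.ofNat (List ℕ) n) : m < n := by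
  have := lt_encode_of_mem _ m h
  rwa [Denumerable.encode_ofNat] at this

/-- evaluation of codes -/
def ev (F : List K → K) (v : ℕ → K) : ℕ → K
  | n => if n % 2 = 0 then v (n / 2) else
      F ((Denumerable.ofNat (List ℕ) (n / 2)).attach.map fun m => ev F v m.1)
decreasing_by
  have := lt_of_mem_ofNat (n / 2) m.1 m.2
  omega

theorem ev_even (v : ℕ → K) (i : ℕ) : ev F v (2 * i) = v i := by
  rw [ev]
  simp

theorem ev_odd (v : ℕ → K) (l : List ℕ) :
    ev F v (2 * Encodable.encode l + 1) = F (l.map (ev F v)) := by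
  rw [ev]
  have h1 : (2 * Encodable.encode l + 1) % 2 ≠ 0 := by omega
  have h2 : (2 * Encodable.encode l + 1) / 2 = Encodable.encode l := by omega
  rw [if_neg h1]
  congr 1
  have h3 : ∀ l' : List ℕ, l' = l → (l'.attach.map fun m => ev F v m.1) = l.map (ev F v) := by
    rintro l' rfl
    simp
  apply h3
  rw [h2, Denumerable.ofNat_encode]

end Codes

section Code2

variable {K : Type} [LinearOrder K]

/-- the increasing enumeration of a finite set, padded by a fixed element -/
noncomputable def vv (d : K) (s : Finset K) (i : ℕ) : K := ((s.sort (· ≥ ·)).reverse).getD i d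

theorem vv_insert (d : K) (s : Finset K) (b : K) (hb : ∀ x ∈ s, x < b) (i : ℕ) (hi : i < s.card) :
    vv d (insert b s) i = vv d s i := by
  unfold vv
  have h1 : (insert b s).sort (· ≥ ·) = b :: s.sort (· ≥ ·) := by
    apply Finset.sort_insert
    · intro x hx; exact (hb x hx).le
    · intro hx; exact lt_irrefl _ (hb b hx)
  rw [h1, List.reverse_cons, List.getD_append]
  simpa using hi

theorem vv_mem (d : K) (s : Finset K) (x : K) (hx : x ∈ s) : ∃ i < s.card, vv d s i = x := by
  have h1 : x ∈ (s.sort (· ≥ ·)).reverse := by simpa using hx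
  obtain ⟨i, hi, h2⟩ := List.mem_iff_getElem.1 h1
  refine ⟨i, by simpa using hi, ?_⟩
  unfold vv
  rw [List.getD_eq_getElem _ _ hi, h2]

/-- end-extension of a finite set inside an unbounded set -/
theorem exists_ext (d : K) {H : Set K} (hH : ∀ a, ∃ b ∈ H, a < b) (a : Finset K)
    (ha : (a : Set K) ⊆ H) (N : ℕ) (hN : a.card ≤ N) :
    ∃ s : Finset K, (s : Set K) ⊆ H ∧ s.card = N ∧ ∀ i < a.card, vv d s i = vv d a i := by
  induction N, hN using Nat.le_induction with
  | base => exact ⟨a, ha, rfl, fun _ _ => rfl⟩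
  | succ N hN ih =>
    obtain ⟨s, hs, hc, hv⟩ := ih
    obtain ⟨m, hm⟩ : ∃ m, ∀ x ∈ s, x ≤ m := by
      rcases s.eq_empty_or_nonempty with rfl | hne
      · exact ⟨d, by simp⟩
      · exact ⟨s.max' hne, fun x hx => s.le_max' x hx⟩
    obtain ⟨b, hbH, hb⟩ := hH m
    have hlt : ∀ x ∈ s, x < b := fun x hx => (hm x hx).trans_lt hb
    refine ⟨insert b s, ?_, ?_, ?_⟩
    · intro x hx
      rw [Finset.coe_insert] at hx
      rcases hx with rfl | hx
      · exact hbH
      · exact hs hx
    · rw [Finset.card_insert_of_notMem (fun h => lt_irrefl _ (hlt b h)), hc]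
    · intro i hi
      rw [vv_insert d s b hlt i (by omega), hv i hi]

theorem Gen.exists_code (F : List K → K) (d : K) {H : Set K} {x : K} (hx : Gen F H x) :
    ∃ a₀ : Finset K, (a₀ : Set K) ⊆ H ∧ ∀ a : Finset K, a₀ ⊆ a →
      ∃ n, ∀ v : ℕ → K, (∀ i < a.card, v i = vv d a i) → ev F v n = x := by
  induction hx with
  | @base x hx =>
    refine ⟨{x}, by simpa using hx, fun a ha => ?_⟩
    obtain ⟨i, hi, h1⟩ := vv_mem d a x (ha (by simp))
    exact ⟨2 * i, fun v hv => by rw [ev_even, hv i hi, h1]⟩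
  | @app l hl ih =>
    classical
    choose! A hA1 hA2 using ih
    refine ⟨l.toFinset.biUnion A, ?_, fun a ha => ?_⟩
    · intro y hy
      simp only [Finset.coe_biUnion, Set.mem_iUnion] at hy
      obtain ⟨z, hz, hy⟩ := hy
      exact hA1 z (by simpa using hz) hy
    · have h1 : ∀ z ∈ l, ∃ n, ∀ v : ℕ → K, (∀ i < a.card, v i = vv d a i) → ev F v n = z :=
        fun z hz => hA2 z hz a (fun y hy => ha (Finset.mem_biUnion.2 ⟨z, by simpa using hz, hy⟩))
      choose! N hN using h1
      refine ⟨2 * Encodable.encode (l.map N) + 1, fun v hv => ?_⟩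
      rw [ev_odd, List.map_map]
      congr 1
      conv_rhs => rw [← List.map_id l]
      apply List.map_congr_left
      intro z hz
      exact hN z hz v hv

/-- One function on the finite sets that produces everything generated by `F` from an unbounded
set. -/
theorem exists_fun (F : List K → K) (d : K) : ∃ f : Finset K → K, ∀ H : Set K,
    (∀ a, ∃ b ∈ H, a < b) → ∀ x, Gen F H x → ∃ s : Finset K, (s : Set K) ⊆ H ∧ f s = x := by
  refine ⟨fun s => ev F (vv d s) s.card.unpair.1, fun H hH x hx => ?_⟩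
  obtain ⟨a, ha, h1⟩ := hx.exists_code F d
  obtain ⟨n, hn⟩ := h1 a (Finset.Subset.refl a)
  obtain ⟨s, hs, hc, hv⟩ := exists_ext d hH a ha (Nat.pair n a.card) (Nat.right_le_pair _ _)
  refine ⟨s, hs, ?_⟩
  show ev F (vv d s) s.card.unpair.1 = x
  rw [hc, Nat.unpair_pair]
  exact hn _ hv

end Code2

end Pool.Agent.H548
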