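import Pool.Agent.H548.Closed

/-!
# Building countable chains
-/

set_option autoImplicit false

namespace Pool.Agent.H548

open Cardinal Ordinal Set Order

/-- Dependent choice for sequences of sets. -/
theorem exists_seq {α : Type 1} {P : List α → α → Prop} (h : ∀ L, ∃ X, P L X) :
    ∃ X : ℕ → α, ∀ n, P (List.ofFn fun i : Fin n => X i) (X n) := by
  choose f hf using h
  let L : ℕ → List α := fun n => Nat.rec [] (fun _ l => l ++ [f l]) n
  have hL : ∀ n, L (n + 1) = L n ++ [f (L n)] := fun n => rfl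
  refine ⟨fun n => f (L n), fun n => ?_⟩
  have h1 : ∀ n, (List.ofFn fun i : Fin n => f (L i)) = L n := by
    intro n
    induction n with
    | zero => simp [L]
    | succ n ih =>
      rw [List.ofFn_succ_last, hL]
      simp only [Fin.val_castSucc, Fin.val_last]
      rw [ih]
  rw [h1]
  exact hf _

theorem getD_ofFn (X : ℕ → Set Ordinal.{0}) (n i : ℕ) (hi : i < n) :
    (List.ofFn fun i : Fin n => X i).getD i ∅ = X i := by
  rw [List.getD_eq_getElem _ _ (by simpa using hi)]
  simp

/-- the functions used along a chain -/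
noncomputable def HH (F H : List Ordinal.{0} → Ordinal.{0}) (L : List (Set Ordinal.{0})) :
    ℕ → List Ordinal.{0} → Ordinal.{0}
  | 0, l => F l
  | 1, l => H l
  | (i + 2), [b] => sSup (L.getD i ∅ ∩ Set.Iio b)
  | _, _ => 0

/-- the closure conditions of the chain theorem, in one function -/
noncomputable def PP (κ : Cardinal.{0}) (F H : List Ordinal.{0} → Ordinal.{0})
    (L : List (Set Ordinal.{0})) : List Ordinal.{0} → Ordinal.{0} :=
  trunc κ.ord (comb (HH F H L))

theorem PP_lt {κ : Cardinal.{0}} (hκ : κ.IsRegular) (F H : List Ordinal.{0} → Ordinal.{0})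
    (L : List (Set Ordinal.{0})) (l) : PP κ F H L l < κ.ord :=
  trunc_lt hκ.ord_pos _ _

theorem PP_closed {κ : Cardinal.{0}} {F H : List Ordinal.{0} → Ordinal.{0}}
    (hF : ∀ l, F l < κ.ord) (hH : ∀ l, H l < κ.ord) {X : ℕ → Set Ordinal.{0}} {n : ℕ}
    (hsub : X n ⊆ Set.Iio κ.ord) (hne : (X n).Nonempty)
    (h : ClosedUnder (PP κ F H (List.ofFn fun i : Fin n => X i)) (X n)) :
    ClosedUnder F (X n) ∧ ClosedUnder H (X n) ∧
      ∀ i < n, ∀ β ∈ X n, sSup (X i ∩ Set.Iio β) ∈ X n := by
  have h1 := fun i l hl hk => closed_comb hne h i l hl hk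
  refine ⟨fun l hl => h1 0 l hl (hF l), fun l hl => h1 1 l hl (hH l), fun i hi β hβ => ?_⟩
  have h2 := h1 (i + 2) [β] (by simpa using hβ)
  have h3 : HH F H (List.ofFn fun i : Fin n => X i) (i + 2) [β] = sSup (X i ∩ Set.Iio β) := by
    show sSup ((List.ofFn fun i : Fin n => X i).getD i ∅ ∩ Set.Iio β) = _
    rw [getD_ofFn X n i hi]
  rw [h3] at h2
  apply h2
  exact (csSup_le' (fun x hx => hx.2.le)).trans_lt (hsub hβ)

end Pool.Agent.H548
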