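import Pool.Agent.H548.Branch
import Pool.Agent.H548.All
import Pool.Agent.H833R3.WC

/-!
# Weak compactness and branches of lists
-/

set_option autoImplicit false

namespace Pool.Agent.H548

open Cardinal Ordinal Set Order

/-- `κ` is weakly compact: `κ` is uncountable and `κ → (κ)²₂`. -/
def IsWeaklyCompact (κ : Cardinal.{0}) : Prop :=
  ℵ₀ < κ ∧ ∀ c : κ.ord.ToType → κ.ord.ToType → Prop, ∃ H : Set κ.ord.ToType, #H = κ ∧
    ((∀ x ∈ H, ∀ y ∈ H, x < y → c x y) ∨ (∀ x ∈ H, ∀ y ∈ H, x < y → ¬ c x y))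

theorem reg_bound {κ : Cardinal.{0}} (hκ : κ.IsInaccessible) (ι : Type) (hι : #ι < κ)
    (f : ι → κ.ord.ToType) : ∃ γ : κ.ord.ToType, ∀ i, f i < γ := by
  have h1 : (⨆ i, toO (f i) + 1) < κ.ord := by
    apply Ordinal.iSup_add_one_lt_of_lt_cof
    · exact hι.trans_le hκ.le_cof_ord
    · exact fun i => toO_lt _
  refine ⟨ofO _ h1, fun i => ?_⟩
  rw [← toO_lt_toO, toO_mk]
  exact (Order.lt_add_one_iff.2 le_rfl).trans_le (Ordinal.le_iSup (fun i => toO (f i) + 1) i)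

theorem inac_K {κ : Cardinal.{0}} (hκ : κ.IsInaccessible) :
    Pool.Agent.H833R3.Levy.Inac κ.ord.ToType where
  wf := inferInstance
  unc := by
    rw [Cardinal.mk_ord_toType]
    exact (Cardinal.aleph_one_le_continuum.trans_eq Cardinal.two_power_aleph0.symm).trans_lt
      (hκ.isStrongPrelimit hκ.aleph0_lt)
  reg := by
    intro ι hι f
    rw [Cardinal.mk_ord_toType] at hι
    exact reg_bound hκ ι hι f
  small := by
    intro γ
    rw [Cardinal.mk_ord_toType]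
    have := Cardinal.mk_Iio_lt γ (by rw [Cardinal.mk_ord_toType, Ordinal.type_toType])
    rwa [Cardinal.mk_ord_toType] at this
  pow := by
    intro μ hμ
    rw [Cardinal.mk_ord_toType] at hμ ⊢
    exact hκ.isStrongPrelimit hμ

theorem IsWeaklyCompact.hasBranches {κ : Cardinal.{0}} (hκ : κ.IsInaccessible)
    (h : IsWeaklyCompact κ) : HasBranches κ := by
  intro d
  have hP : Pool.Agent.H833R3.Levy.PairPart κ.ord.ToType := by
    intro c
    obtain ⟨H, hH, h1⟩ := h.2 c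
    exact ⟨H, by rw [hH, Cardinal.mk_ord_toType], h1⟩
  obtain ⟨H, hH, h1⟩ := Pool.Agent.H833R3.Levy.exists_homog (inac_K hκ) hP
    (fun ξ => {b : κ.ord.ToType | toO ξ ∈ d (toO b)})
  refine ⟨{x | ∃ ξ : κ.ord.ToType, toO ξ = x ∧ ∃ b, ∀ β ∈ H, b ≤ β → toO ξ ∈ d (toO β)},
    fun δ hδ => ?_⟩
  -- thresholds
  have h2 : ∀ ξ : κ.ord.ToType, ∃ b, ∀ β ∈ H, b ≤ β →
      (toO ξ ∈ d (toO β) ↔ ∃ b, ∀ β ∈ H, b ≤ β → toO ξ ∈ d (toO β)) := by
    intro ξ
    rcases h1 ξ with ⟨b, hb⟩ | ⟨b, hb⟩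
    · exact ⟨b, fun β hβ hbβ => ⟨fun _ => ⟨b, hb⟩, fun _ => hb β hβ hbβ⟩⟩
    · refine ⟨b, fun β hβ hbβ => ⟨fun h3 => absurd h3 (hb β hβ hbβ), ?_⟩⟩
      rintro ⟨b', hb'⟩
      obtain ⟨β', hβ', hlt⟩ := hH (max b b')
      exact absurd (hb' β' hβ' ((le_max_right _ _).trans hlt.le))
        (hb β' hβ' ((le_max_left _ _).trans hlt.le))
  choose t ht using h2
  obtain ⟨γ, hγ⟩ := reg_bound hκ (Set.Iio (ofO δ hδ)) (by
    have := Cardinal.mk_Iio_lt (ofO δ hδ) (by rw [Cardinal.mk_ord_toType, Ordinal.type_toType])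
    rwa [Cardinal.mk_ord_toType] at this) (fun ξ => t ξ.1)
  obtain ⟨β, hβ, hlt⟩ := hH (max γ (ofO δ hδ))
  refine ⟨toO β, toO_lt β, ?_, fun x hx => ?_⟩
  · have h3 : ofO δ hδ < β := (le_max_right _ _).trans_lt hlt
    rw [← toO_lt_toO, toO_mk] at h3
    exact h3.le
  · have hxκ : x < κ.ord := hx.trans hδ
    have h3 : ofO (κ := κ) x hxκ < ofO δ hδ := by
      rw [← toO_lt_toO, toO_mk, toO_mk]
      exact hx
    have h4 := ht (ofO x hxκ) β hβ (((hγ ⟨_, h3⟩).le.trans (le_max_left _ _)).trans hlt.le)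
    rw [toO_mk] at h4
    rw [h4]
    constructor
    · rintro ⟨ξ, h5, b, hb⟩
      subst h5
      exact ⟨b, hb⟩
    · rintro ⟨b, hb⟩
      exact ⟨ofO x hxκ, toO_mk x hxκ, b, fun β hβ hbβ => by
        rw [toO_mk]
        exact hb β hβ hbβ⟩

theorem HasBranches.isWeaklyCompact {κ : Cardinal.{0}} (hκ : κ.IsInaccessible)
    (h : HasBranches κ) : IsWeaklyCompact κ := by
  classical
  refine ⟨hκ.aleph0_lt, fun c => ?_⟩
  obtain ⟨B, hB⟩ := h fun b => {x | ∃ (h1 : x < κ.ord) (h2 : b < κ.ord), c (ofO x h1) (ofO b h2)}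
  have step : ∀ (i : κ.ord.ToType) (g : ∀ j, j < i → κ.ord.ToType), ∃ b : κ.ord.ToType,
      ∀ j hj, g j hj < b ∧ (c (g j hj) b ↔ toO (g j hj) ∈ B) := by
    intro i g
    obtain ⟨γ, hγ⟩ := reg_bound hκ (Set.Iio i) (by
      have := Cardinal.mk_Iio_lt i (by rw [Cardinal.mk_ord_toType, Ordinal.type_toType])
      rwa [Cardinal.mk_ord_toType] at this) (fun j => g j.1 j.2)
    obtain ⟨β, hβκ, hβ, h1⟩ := hB (toO γ) (toO_lt γ)
    refine ⟨ofO β hβκ, fun j hj => ?_⟩
    have h2 : toO (g j hj) < toO γ := toO_lt_toO.2 (hγ ⟨j, hj⟩)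
    refine ⟨?_, ?_⟩
    · rw [← toO_lt_toO, toO_mk]
      exact h2.trans_le hβ
    · rw [h1 _ h2]
      have h3 : ofO (toO (g j hj)) (toO_lt _) = g j hj := toO_inj (toO_mk _ _)
      constructor
      · intro h4
        refine ⟨toO_lt _, hβκ, ?_⟩
        rw [h3]
        exact h4
      · rintro ⟨_, _, h4⟩
        rw [h3] at h4
        exact h4
  let F : κ.ord.ToType → κ.ord.ToType :=
    WellFounded.fix (wellFounded_lt (α := κ.ord.ToType)) fun i g => (step i g).choose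
  have hF : ∀ i j, j < i → F j < F i ∧ (c (F j) (F i) ↔ toO (F j) ∈ B) := by
    intro i j hj
    have h1 : F i = (step i fun j _ => F j).choose := WellFounded.fix_eq _ _ _
    have h2 := (step i fun j _ => F j).choose_spec j hj
    rw [← h1] at h2
    exact h2
  have hinj : Function.Injective F := by
    intro i j hij
    rcases lt_trichotomy i j with h1 | h1 | h1
    · exact absurd hij (hF j i h1).1.ne
    · exact h1
    · exact absurd hij (hF i j h1).1.ne'
  have hlt : ∀ i j, F i < F j → i < j := by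
    intro i j hij
    rcases lt_trichotomy i j with h1 | h1 | h1
    · exact h1
    · subst h1
      exact absurd hij (lt_irrefl _)
    · exact absurd (hij.trans (hF i j h1).1) (lt_irrefl _)
  by_cases hc : #{i | toO (F i) ∈ B} = κ
  · refine ⟨F '' {i | toO (F i) ∈ B}, ?_, Or.inl ?_⟩
    · rw [Cardinal.mk_image_eq hinj, hc]
    · rintro _ ⟨i, hi, rfl⟩ _ ⟨j, hj, rfl⟩ hij
      exact ((hF j i (hlt i j hij)).2).2 hi
  · refine ⟨F '' {i | toO (F i) ∉ B}, ?_, Or.inr ?_⟩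
    · rw [Cardinal.mk_image_eq hinj]
      have h1 : #{i | toO (F i) ∈ B} < κ := by
        refine lt_of_le_of_ne ?_ hc
        refine (Cardinal.mk_set_le _).trans ?_
        rw [Cardinal.mk_ord_toType]
      apply le_antisymm
      · refine (Cardinal.mk_set_le _).trans ?_
        rw [Cardinal.mk_ord_toType]
      · by_contra h2
        rw [not_le] at h2
        have h3 : #({i | toO (F i) ∈ B} ∪ {i | toO (F i) ∉ B} : Set κ.ord.ToType) < κ :=
          (Cardinal.mk_union_le _ _).trans_lt (Cardinal.add_lt_of_lt hκ.aleph0_lt.le h1 h2)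
        have h4 : ({i | toO (F i) ∈ B} ∪ {i | toO (F i) ∉ B} : Set κ.ord.ToType) = Set.univ := by
          ext i
          simp [em]
        rw [h4, Cardinal.mk_univ, Cardinal.mk_ord_toType] at h3
        exact lt_irrefl _ h3
    · rintro _ ⟨i, hi, rfl⟩ _ ⟨j, hj, rfl⟩ hij h5
      exact hi (((hF j i (hlt i j hij)).2).1 h5)

end Pool.Agent.H548
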